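import Pool.Agent.P.MP_ebce6b_al.Main

/-!
The span of the `n`-th powers is an ideal; the bound `n ^ 2 - 2`; transfer to unitizations.
-/

namespace Pool.Agent.P.MP_ebce6b_al

open Finset Equiv

section Ideal

variable {U : Type*} [Ring U] [Algebra ℚ U]

/-- The part of `(x + y) ^ k` that is linear in `y`. -/
def Dv (x y : U) : ℕ → U
  | 0 => 0
  | k + 1 => x * Dv x y k + y * x ^ k

theorem exists_poly (f : U →ₗ[ℚ] ℚ) (x y : U) (k : ℕ) : ∀ p : U, ∃ Q : Polynomial ℚ,
    (∀ t : ℚ, Q.eval t = f (p * (x + t • y) ^ k)) ∧ Q.coeff 0 = f (p * x ^ k) ∧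
      Q.coeff 1 = f (p * Dv x y k) := by
  induction k with
  | zero => exact fun p => ⟨Polynomial.C (f p), by simp, by simp, by simp [Dv]⟩
  | succ k ih =>
    intro p
    obtain ⟨Q1, a1, b1, c1⟩ := ih (p * x)
    obtain ⟨Q2, a2, b2, -⟩ := ih (p * y)
    refine ⟨Q1 + Polynomial.X * Q2, fun t => ?_, ?_, ?_⟩
    · simp [a1, a2, pow_succ', add_mul, mul_add, mul_assoc]
    · simp [b1, pow_succ', mul_assoc]
    · simp [c1, b2, Dv, Polynomial.coeff_X_mul, mul_add, mul_assoc]

theorem mem_of_dual {I : Submodule ℚ U} {v : U}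
    (h : ∀ f : U →ₗ[ℚ] ℚ, (∀ w ∈ I, f w = 0) → f v = 0) : v ∈ I := by
  by_contra hv
  obtain ⟨f, h1, h2⟩ := Submodule.exists_dual_map_eq_bot_of_notMem hv inferInstance
  refine h1 (h f fun w hw => ?_)
  have : f w ∈ I.map f := Submodule.mem_map_of_mem hw
  rwa [h2, Submodule.mem_bot] at this

theorem Dv_mem {S : NonUnitalSubalgebra ℚ U} {I : Submodule ℚ U} {k : ℕ}
    (h : ∀ a ∈ S, a ^ k ∈ I) {x y : U} (hx : x ∈ S) (hy : y ∈ S) : Dv x y k ∈ I := by
  refine mem_of_dual fun f hf => ?_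
  obtain ⟨Q, a, -, c⟩ := exists_poly f x y k 1
  have : Q = 0 := Polynomial.funext fun t => by
    rw [a, one_mul, hf _ (h _ (S.add_mem hx (S.smul_mem t hy))), Polynomial.eval_zero]
  rw [this, one_mul] at c
  simpa using c.symm

omit [Algebra ℚ U] in
theorem Dv_left (x y : U) (k : ℕ) : Dv x (x * y) k = x * Dv x y k := by
  induction k with
  | zero => simp [Dv]
  | succ k ih => simp [Dv, ih, mul_add, mul_assoc]

omit [Algebra ℚ U] in
theorem Dv_right (x y : U) (k : ℕ) : Dv x (y * x) k = Dv x y k * x := by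
  induction k with
  | zero => simp [Dv]
  | succ k ih => simp only [Dv, ih, add_mul, mul_assoc, ← pow_succ, ← pow_succ']

omit [Algebra ℚ U] in
theorem Dv_succ' (x y : U) (k : ℕ) : Dv x y (k + 1) = Dv x y k * x + x ^ k * y := by
  induction k with
  | zero => simp [Dv]
  | succ k ih =>
    rw [Dv]
    nth_rewrite 1 [ih]
    rw [Dv]
    simp only [mul_add, add_mul, mul_assoc, ← pow_succ]
    rw [← mul_assoc x (x ^ k), ← pow_succ']
    abel

omit [Algebra ℚ U] in
theorem Dv_sq (x : U) (k : ℕ) : Dv x (x * x) k = k • x ^ (k + 1) := by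
  induction k with
  | zero => simp [Dv]
  | succ k ih => simp only [Dv, ih, mul_smul_comm, mul_assoc, ← pow_succ', succ_nsmul]

theorem mul_pow_mem {S : NonUnitalSubalgebra ℚ U} {I : Submodule ℚ U} {n : ℕ} (hn : 1 ≤ n)
    (h : ∀ a ∈ S, a ^ n ∈ I) {x b : U} (hx : x ∈ S) (hb : b ∈ S) :
    b * x ^ n ∈ I ∧ x ^ n * b ∈ I := by
  have h1 : ∀ a ∈ S, a ^ (n + 1) ∈ I := fun a ha => by
    have := Dv_mem h ha (S.mul_mem ha ha)
    rw [Dv_sq, ← Nat.cast_smul_eq_nsmul ℚ] at this
    exact (I.smul_mem_iff (by positivity)).1 this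
  have h2 := Dv_mem h1 hx hb
  constructor
  · have h3 := Dv_mem h hx (S.mul_mem hx hb)
    rw [Dv_left] at h3
    rw [Dv] at h2
    exact (I.add_mem_iff_right h3).1 h2
  · have h3 := Dv_mem h hx (S.mul_mem hb hx)
    rw [Dv_right] at h3
    rw [Dv_succ'] at h2
    exact (I.add_mem_iff_right h3).1 h2

theorem core_two {n : ℕ} (hn : 3 ≤ n) (S : NonUnitalSubalgebra ℚ U) (f : U →ₗ[ℚ] ℚ)
    (hf : ∀ p q : U, ∀ a ∈ S, f (p * a ^ n * q) = 0) (x : Fin (n ^ 2 - 2) → U)
    (hx : ∀ k, x k ∈ S) : f (List.ofFn x).prod = 0 := by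
  obtain ⟨r, hr⟩ : ∃ r, n ^ 2 - 2 = n * 2 + r := ⟨n ^ 2 - 2 - n * 2, by
    have : n * 2 + 2 ≤ n ^ 2 := by nlinarith
    omega⟩
  have hr' : n ^ 2 ≤ n * 2 + r + 2 := by omega
  revert x
  rw [hr]
  intro x hx
  let M : AlternatingMap ℚ S.toSubmodule ℚ (Fin (n * 2 + r)) :=
    { (f.compMultilinearMap (MultilinearMap.mkPiAlgebraFin ℚ (n * 2 + r) U)).compLinearMap
        (fun _ => S.toSubmodule.subtype) with
      map_eq_zero_of_eq' := fun v i j hv hij =>
        core S.toNonUnitalSubsemiring f hf (fun k => (v k : U)) (fun k => (v k).2) {i, j} (v i)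
          (by simp [hv]) (by rw [card_pair hij]; exact hr') }
  let g : Perm (Fin n) → Perm (Fin (n * 2 + r)) := fun π => finSumFinEquiv.permCongr
    (Equiv.sumCongr (finProdFinEquiv.permCongr (Equiv.prodCongrLeft fun _ : Fin 2 => π))
      (1 : Perm (Fin r)))
  have hg : ∀ π, Perm.sign (g π) = 1 := fun π => by
    simp only [g]
    rw [Perm.sign_permCongr, Perm.sign_sumCongr, Perm.sign_permCongr, Perm.sign_prodCongrLeft]
    simp
  let c : Fin n → U := fun i =>
    x (Fin.castAdd r (finProdFinEquiv (i, 0))) * x (Fin.castAdd r (finProdFinEquiv (i, 1)))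
  have hw : ∀ π, (List.ofFn fun k => x (g π k)).prod =
      (List.ofFn fun i => c (π i)).prod * (List.ofFn fun k => x (Fin.natAdd _ k)).prod := by
    intro π
    rw [List.ofFn_add, List.prod_append, List.ofFn_mul, List.prod_flatten, List.map_ofFn]
    congr 3
    · funext i
      have e : ∀ j : Fin 2, g π (Fin.castAdd r (finProdFinEquiv (i, j))) =
          Fin.castAdd r (finProdFinEquiv (π i, j)) := fun j => by simp [g]
      simp only [Function.comp_apply, List.ofFn_succ, List.ofFn_zero, List.prod_cons,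
        List.prod_nil, mul_one, c, ← e]
      congr 3 <;> ext <;> simp [finProdFinEquiv] <;> omega
    · funext k
      simp [g]
  have h1 := sym_zero S.toNonUnitalSubsemiring f hf 1 (List.ofFn fun k => x (Fin.natAdd _ k)).prod
    c fun i => S.mul_mem (hx _) (hx _)
  rw [one_mul, Finset.sum_mul, map_sum, Finset.sum_congr rfl (g := fun _ => f (List.ofFn x).prod),
    Finset.sum_const, nsmul_eq_mul] at h1
  · exact (mul_eq_zero.1 h1).resolve_left (by exact_mod_cast card_ne_zero.2 univ_nonempty)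
  · intro π _
    have := M.map_perm (fun k => ⟨x k, hx k⟩) (g π)
    rw [hg, one_smul] at this
    rw [← hw]
    exact this

end Ideal

theorem transfer (Φ A : Type*) [CommRing Φ] [Algebra ℚ Φ] [NonUnitalRing A] [Module Φ A]
    [IsScalarTower Φ A A] [SMulCommClass Φ A A] {n : ℕ} (hn : 1 ≤ n) (v : Unitization Φ A)
    (h : ∀ [Algebra ℚ (Unitization Φ A)] (S : NonUnitalSubalgebra ℚ (Unitization Φ A))
      (f : Unitization Φ A →ₗ[ℚ] ℚ), (∀ a : A, (a : Unitization Φ A) ∈ S) →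
      (∀ p q, ∀ a ∈ S, f (p * a ^ n * q) = 0) → f v = 0) :
    v ∈ Submodule.span Φ (Set.range fun a : A => (a : Unitization Φ A) ^ n) := by
  letI : Algebra ℚ (Unitization Φ A) :=
    ((algebraMap Φ (Unitization Φ A)).comp (algebraMap ℚ Φ)).toAlgebra'
      fun c x => Algebra.commutes (algebraMap ℚ Φ c) x
  have hs : ∀ (t : ℚ) (w : Unitization Φ A), t • w = algebraMap ℚ Φ t • w := fun t w =>
    (Algebra.smul_def (algebraMap ℚ Φ t) w).symm
  set J := Submodule.span Φ (Set.range fun a : A => (a : Unitization Φ A) ^ n) with hJ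
  let I : Submodule ℚ (Unitization Φ A) :=
    { carrier := J
      add_mem' := J.add_mem
      zero_mem' := J.zero_mem
      smul_mem' := fun t w hw => by rw [hs]; exact J.smul_mem _ hw }
  let S : NonUnitalSubalgebra ℚ (Unitization Φ A) :=
    { carrier := Set.range fun a : A => (a : Unitization Φ A)
      add_mem' := by
        rintro _ _ ⟨a, rfl⟩ ⟨b, rfl⟩
        exact ⟨a + b, by simp⟩
      zero_mem' := ⟨0, by simp⟩
      mul_mem' := by
        rintro _ _ ⟨a, rfl⟩ ⟨b, rfl⟩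
        exact ⟨a * b, by simp⟩
      smul_mem' := by
        rintro t _ ⟨a, rfl⟩
        exact ⟨algebraMap ℚ Φ t • a, by rw [hs]; simp⟩ }
  have h0 : ∀ a ∈ S, a ^ n ∈ I := by
    rintro _ ⟨a, rfl⟩
    exact Submodule.subset_span ⟨a, rfl⟩
  have h1 : ∀ p : Unitization Φ A, ∀ w ∈ J, p * w ∈ J ∧ w * p ∈ J := by
    intro p w hw
    induction hw using Submodule.span_induction with
    | mem w hw =>
      obtain ⟨a, rfl⟩ := hw
      have h2 := mul_pow_mem hn h0 (x := a) (b := p.snd) ⟨a, rfl⟩ ⟨p.snd, rfl⟩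
      have h3 : p.fst • (a : Unitization Φ A) ^ n ∈ J := J.smul_mem _ (h0 _ ⟨a, rfl⟩)
      rw [← Unitization.inl_fst_add_inr_snd_eq p, add_mul, mul_add,
        ← Unitization.algebraMap_eq_inl, ← Algebra.commutes, ← Algebra.smul_def]
      exact ⟨J.add_mem h3 h2.1, J.add_mem h3 h2.2⟩
    | zero => simp
    | add x y _ _ hx hy =>
      rw [mul_add, add_mul]
      exact ⟨J.add_mem hx.1 hy.1, J.add_mem hx.2 hy.2⟩
    | smul c x _ hx =>
      rw [mul_smul_comm, smul_mul_assoc]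
      exact ⟨J.smul_mem c hx.1, J.smul_mem c hx.2⟩
  exact mem_of_dual (I := I) fun f hf => h S f (fun a => ⟨a, rfl⟩) fun p q a ha =>
    hf _ (h1 q _ (h1 p _ (h0 a ha)).1).2

end Pool.Agent.P.MP_ebce6b_al
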