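import Mathlib

/-!
Polarisation: a multilinear map that vanishes on the diagonal of an additive submonoid has
vanishing symmetrisation there.
-/

namespace Pool.Agent.P.MP_ebce6b_al

open Finset

theorem pol {R E F κ : Type*} [Semiring R] [AddCommMonoid E] [AddCommGroup F] [Module R E]
    [Module R F] [Fintype κ] [DecidableEq κ] (M : MultilinearMap R (fun _ : κ => E) F)
    (H : AddSubmonoid E) (h0 : ∀ c ∈ H, M (fun _ => c) = 0) (c : κ → E) (hc : ∀ i, c i ∈ H) :
    ∑ π : Equiv.Perm κ, M (fun i => c (π i)) = 0 := by
  classical
  have key : ∀ S : Finset κ,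
      ∑ g ∈ univ.filter (fun g : κ → κ => univ.image g = S), M (fun i => c (g i)) = 0 := by
    intro S
    induction S using Finset.strongInduction with
    | H S ih =>
      have h1 := h0 (∑ j ∈ S, c j) (H.sum_mem fun j _ => hc j)
      rw [M.map_sum_finset (fun _ j => c j) (fun _ => S)] at h1
      rw [← Finset.sum_fiberwise_of_maps_to (t := S.powerset) (g := fun g => univ.image g)
        (by
          intro g hg
          rw [Fintype.mem_piFinset] at hg
          rw [mem_powerset]
          intro x hx
          obtain ⟨i, -, rfl⟩ := mem_image.1 hx
          exact hg i)] at h1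
      rw [← h1, ← Finset.add_sum_erase _ _ (mem_powerset.2 (Subset.refl S))]
      rw [Finset.sum_eq_zero (s := S.powerset.erase S), add_zero]
      · refine Finset.sum_congr ?_ fun _ _ => rfl
        ext g
        simp only [mem_filter, mem_univ, true_and, Fintype.mem_piFinset]
        constructor
        · intro h
          exact ⟨fun i => h ▸ mem_image_of_mem g (mem_univ i), h⟩
        · exact fun h => h.2
      · intro T hT
        rw [mem_erase, mem_powerset] at hT
        rw [← ih T (lt_of_le_of_ne hT.2 hT.1)]
        refine Finset.sum_congr ?_ fun _ _ => rfl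
        ext g
        simp only [mem_filter, mem_univ, true_and, Fintype.mem_piFinset]
        constructor
        · exact fun h => h.2
        · intro h
          exact ⟨fun i => hT.2 (h ▸ mem_image_of_mem g (mem_univ i)), h⟩
  rw [← key univ]
  refine Finset.sum_bij (fun π _ => (π : κ → κ)) ?_ ?_ ?_ fun _ _ => rfl
  · intro π _
    simp only [mem_filter, mem_univ, true_and]
    exact image_univ_of_surjective π.surjective
  · intro a _ b _ h
    exact Equiv.ext (congrFun h)
  · intro g hg
    simp only [mem_filter, mem_univ, true_and] at hg
    have hs : Function.Surjective g := fun x => by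
      have : x ∈ univ.image g := by rw [hg]; exact mem_univ x
      obtain ⟨i, -, h⟩ := mem_image.1 this
      exact ⟨i, h⟩
    exact ⟨Equiv.ofBijective g ⟨Finite.injective_iff_surjective.2 hs, hs⟩, mem_univ _, rfl⟩

end Pool.Agent.P.MP_ebce6b_al
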