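import Pool.Agent.P.MP_ebce6b_al.Ptr
import Pool.Agent.P.MP_ebce6b_al.Pol

/-!
The multilinear invariant of matrices attached to an element of the group algebra, and the
vanishing theorem.
-/

namespace Pool.Agent.P.MP_ebce6b_al

open Finset Equiv Function

variable {N n : ℕ}

/-- The multilinear invariant attached to `v`. -/
noncomputable def Gm (n : ℕ) (v : Perm (Fin N) → ℚ) :
    MultilinearMap ℂ (fun _ : Fin N => Matrix (Fin n) (Fin n) ℂ) ℂ :=
  ∑ I : Fin N → Fin n, ∑ J : Fin N → Fin n, (rho n v I J : ℂ) •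
    (MultilinearMap.mkPiAlgebra ℂ (Fin N) ℂ).compLinearMap
      (fun i => Matrix.entryLinearMap ℂ ℂ (I i) (J i))

theorem Gm_apply (v : Perm (Fin N) → ℚ) (z : Fin N → Matrix (Fin n) (Fin n) ℂ) :
    Gm n v z = ∑ I : Fin N → Fin n, ∑ J : Fin N → Fin n,
      (rho n v I J : ℂ) * ∏ i, z i (I i) (J i) := by
  simp [Gm]

theorem Gm_apply' (v : Perm (Fin N) → ℚ) (z : Fin N → Matrix (Fin n) (Fin n) ℂ) :
    Gm n v z = ∑ σ : Perm (Fin N), (v σ : ℂ) * ∑ I : Fin N → Fin n, ∏ i, z i (I i) (I (σ i)) := by
  rw [Gm_apply]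
  simp only [Finset.mul_sum]
  rw [Finset.sum_comm (s := (univ : Finset (Perm (Fin N))))]
  refine Finset.sum_congr rfl fun I _ => ?_
  simp only [rho, Rat.cast_sum, Finset.sum_mul]
  rw [Finset.sum_comm]
  refine Finset.sum_congr rfl fun σ _ => ?_
  rw [Finset.sum_eq_single (I ∘ σ)]
  · simp
  · intro J _ hJ
    rw [if_neg (Ne.symm hJ)]
    simp
  · simp

theorem Gm_mul_comm (v : Perm (Fin N) → ℚ) (z : Fin N → Matrix (Fin n) (Fin n) ℂ)
    (W : Matrix (Fin n) (Fin n) ℂ) : Gm n v (fun i => z i * W) = Gm n v (fun i => W * z i) := by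
  simp only [Gm_apply']
  refine Finset.sum_congr rfl fun σ _ => ?_
  congr 1
  simp only [Matrix.mul_apply, Finset.prod_univ_sum, Fintype.piFinset_univ]
  rw [Finset.sum_comm (f := fun (I : Fin N → Fin n) (A : Fin N → Fin n) =>
    ∏ i, W (I i) (A i) * z i (A i) (I (σ i)))]
  refine Finset.sum_congr rfl fun I _ => ?_
  rw [← Equiv.sum_comp (preE n σ)]
  refine Finset.sum_congr rfl fun B _ => ?_
  simp only [Finset.prod_mul_distrib]
  rw [mul_comm, ← Equiv.prod_comp σ (fun i => W (B i) (I i))]
  rfl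

theorem Gm_comp {X : Finset (Fin N)} {v : Perm (Fin N) → ℚ} (hv : Inv X v) {h : Perm (Fin N)}
    (hh : h ∈ SB X) (z : Fin N → Matrix (Fin n) (Fin n) ℂ) :
    Gm n v (fun i => z (h i)) = Gm n v z := by
  simp only [Gm_apply']
  rw [← Equiv.sum_comp (MulAut.conj h).toEquiv
    (fun σ : Perm (Fin N) => (v σ : ℂ) * ∑ I : Fin N → Fin n, ∏ i, z i (I i) (I (σ i)))]
  refine Finset.sum_congr rfl fun σ _ => ?_
  simp only [MulEquiv.toEquiv_eq_coe, EquivLike.coe_coe, MulAut.conj_apply]
  rw [hv h hh]
  congr 1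
  rw [← Equiv.sum_comp (preE n h)]
  refine Finset.sum_congr rfl fun I _ => ?_
  rw [← Equiv.prod_comp h (fun i => z i (I i) (I ((h * σ * h⁻¹) i)))]
  simp [preE]

theorem Gm_one {v : Perm (Fin N) → ℚ} {i : Fin N} (h : ∀ I J, ptr n v i I J = 0)
    (z : Fin N → Matrix (Fin n) (Fin n) ℂ) (hz : z i = 1) : Gm n v z = 0 := by
  let F : (Fin N → Fin n) → (Fin N → Fin n) → ℂ := fun I J => ∏ j ∈ univ.erase i, z j (I j) (J j)
  have hF : ∀ I J c c', F (update I i c) (update J i c') = F I J := by
    intro I J c c'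
    refine Finset.prod_congr rfl fun j hj => ?_
    rw [update_of_ne (ne_of_mem_erase hj), update_of_ne (ne_of_mem_erase hj)]
  let S := univ.filter fun p : (Fin N → Fin n) × (Fin N → Fin n) => p.1 i = p.2 i
  have e1 : Gm n v z = ∑ p ∈ S, (rho n v p.1 p.2 : ℂ) * F p.1 p.2 := by
    rw [Gm_apply, Finset.sum_filter, Fintype.sum_prod_type]
    refine Finset.sum_congr rfl fun I _ => Finset.sum_congr rfl fun J _ => ?_
    rw [← Finset.mul_prod_erase _ _ (mem_univ i), hz, Matrix.one_apply]
    split_ifs <;> simp [F]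
  have e2 : ∑ q ∈ S ×ˢ (univ : Finset (Fin n)),
      (rho n v (update q.1.1 i q.2) (update q.1.2 i q.2) : ℂ) * F q.1.1 q.1.2 =
      ∑ q ∈ S ×ˢ (univ : Finset (Fin n)), (rho n v q.1.1 q.1.2 : ℂ) * F q.1.1 q.1.2 := by
    refine Finset.sum_nbij' (fun q => ((update q.1.1 i q.2, update q.1.2 i q.2), q.1.1 i))
      (fun q => ((update q.1.1 i q.2, update q.1.2 i q.2), q.1.1 i)) ?_ ?_ ?_ ?_ ?_
    · simp [S]
    · simp [S]
    · rintro ⟨⟨I, J⟩, c⟩ hq
      have : I i = J i := by simpa [S] using hq
      simp only [update_idem, update_self, Prod.mk.injEq, update_eq_self, and_true, true_and]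
      rw [this, update_eq_self]
    · rintro ⟨⟨I, J⟩, c⟩ hq
      have : I i = J i := by simpa [S] using hq
      simp only [update_idem, update_self, Prod.mk.injEq, update_eq_self, and_true, true_and]
      rw [this, update_eq_self]
    · intro q _
      simp only [hF]
  rw [Finset.sum_product, Finset.sum_product_right] at e2
  simp only [← Finset.sum_mul, ← Rat.cast_sum] at e2
  have e3 : ∀ I J, ∑ c, rho n v (update I i c) (update J i c) = 0 := h
  simp only [e3, Rat.cast_zero, zero_mul, Finset.sum_const_zero, ← e1, Finset.sum_const,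
    card_univ, Fintype.card_fin, nsmul_eq_mul] at e2
  rcases Nat.eq_zero_or_pos n with rfl | hn
  · rw [Gm_apply]
    exact Finset.sum_eq_zero fun I _ => (I i).elim0
  · exact (mul_eq_zero.1 e2.symm).resolve_left (by exact_mod_cast hn.ne')

theorem Gm_diag {X : Finset (Fin N)} {v : Perm (Fin N) → ℚ} (hv : Symm n v)
    (h : ∀ i ∈ X, ∀ I J, ptr n v i I J = 0) (hX : n ^ 2 < N + X.card) (ξ : Fin n → ℂ)
    (y : Fin N → Matrix (Fin n) (Fin n) ℂ) :
    Gm n v (X.piecewise (fun _ => Matrix.diagonal ξ) y) = 0 := by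
  classical
  let k : (Fin N → Fin n) → Fin n → ℕ := fun J c => (univ.filter fun i => J i = c).card
  let H : (Fin N → Matrix (Fin n) (Fin n) ℂ) → Polynomial ℂ := fun z =>
    ∑ I : Fin N → Fin n, ∑ J : Fin N → Fin n,
      Polynomial.C ((rho n v I J : ℂ) * ∏ i, z i (I i) (J i)) *
        ∏ c, (1 + Polynomial.C (ξ c) * Polynomial.X) ^ (n - k J c)
  have hk : ∀ I J, rho n v I J ≠ 0 → ∀ c, k J c ≤ n := fun I J hIJ c =>
    not_lt.1 fun hc => hIJ (rho_colour hv I J c hc)
  have hev : ∀ z (t : ℂ), (∀ c, 1 + ξ c * t ≠ 0) → (H z).eval t = (∏ c, (1 + ξ c * t) ^ n) *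
      Gm n v (fun i => z i * Matrix.diagonal fun c => (1 + ξ c * t)⁻¹) := by
    intro z t ht
    simp only [H, Gm_apply, Polynomial.eval_finsetSum, Finset.mul_sum, Polynomial.eval_mul,
      Polynomial.eval_C, Polynomial.eval_prod, Polynomial.eval_pow, Polynomial.eval_add,
      Polynomial.eval_one, Polynomial.eval_X, Matrix.mul_diagonal, Finset.prod_mul_distrib]
    refine Finset.sum_congr rfl fun I _ => Finset.sum_congr rfl fun J _ => ?_
    by_cases h0 : rho n v I J = 0
    · simp [h0]
    have e : ∏ i, (1 + ξ (J i) * t)⁻¹ = ∏ c, ((1 + ξ c * t)⁻¹) ^ k J c := by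
      rw [← Finset.prod_fiberwise (s := univ) (g := J) (f := fun i => (1 + ξ (J i) * t)⁻¹)]
      refine Finset.prod_congr rfl fun c _ => ?_
      rw [Finset.prod_congr rfl (g := fun _ => (1 + ξ c * t)⁻¹), Finset.prod_const]
      intro i hi
      rw [(mem_filter.1 hi).2]
    have e' : ∏ c, (1 + ξ c * t) ^ (n - k J c) =
        (∏ c, (1 + ξ c * t) ^ n) * ∏ c, ((1 + ξ c * t)⁻¹) ^ k J c := by
      rw [← Finset.prod_mul_distrib]
      refine Finset.prod_congr rfl fun c _ => ?_
      rw [pow_sub₀ _ (ht c) (hk I J h0 c), inv_pow]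
    rw [e, e']
    ring
  have hdeg : ∀ z, H z ∈ Polynomial.degreeLT ℂ X.card := by
    intro z
    refine Submodule.sum_mem _ fun I _ => Submodule.sum_mem _ fun J _ => ?_
    by_cases h0 : rho n v I J = 0
    · simp [h0]
    rw [Polynomial.mem_degreeLT]
    refine lt_of_le_of_lt Polynomial.degree_le_natDegree ?_
    have h1 : ∑ c, k J c = N := by
      simpa using (Finset.card_eq_sum_card_fiberwise (s := univ) (t := univ) (f := J)
        (fun _ _ => mem_univ _)).symm
    have h2 : ∑ c, (n - k J c) + ∑ c, k J c = n ^ 2 := by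
      rw [← Finset.sum_add_distrib, Finset.sum_congr rfl (g := fun _ => n)
        (fun c _ => Nat.sub_add_cancel (hk I J h0 c))]
      simp [sq]
    have h3 : (∏ c, (1 + Polynomial.C (ξ c) * Polynomial.X) ^ (n - k J c)).natDegree ≤
        ∑ c, (n - k J c) := by
      refine (Polynomial.natDegree_prod_le _ _).trans (Finset.sum_le_sum fun c _ => ?_)
      refine Polynomial.natDegree_pow_le.trans ?_
      have : (1 + Polynomial.C (ξ c) * Polynomial.X).natDegree ≤ 1 := by compute_degree
      nlinarith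
    have h4 := (Polynomial.natDegree_C_mul_le ((rho n v I J : ℂ) * ∏ i, z i (I i) (J i)) _).trans h3
    exact_mod_cast (by omega : _ < X.card)
  have hrel : Polynomial.X ^ X.card * H (X.piecewise (fun _ => Matrix.diagonal ξ) y) =
      Polynomial.C ((-1) ^ X.card) * H (X.piecewise (fun _ => 1) y) := by
    apply Polynomial.eq_of_infinite_eval_eq
    have hfin : (⋃ c, {t : ℂ | 1 + ξ c * t = 0}).Finite := by
      refine Set.finite_iUnion fun c => Set.Subsingleton.finite fun s hs t ht => ?_
      simp only [Set.mem_ofPred_eq] at hs ht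
      have h0 : ξ c ≠ 0 := fun h => by simp [h] at hs
      exact mul_left_cancel₀ h0 (by linear_combination hs - ht)
    refine Set.Infinite.mono ?_ hfin.infinite_compl
    intro t ht
    have ht' : ∀ c, 1 + ξ c * t ≠ 0 := by simpa using ht
    simp only [Set.mem_ofPred_eq, Polynomial.eval_mul, Polynomial.eval_pow, Polynomial.eval_X,
      Polynomial.eval_C, hev _ t ht']
    set E : Matrix (Fin n) (Fin n) ℂ := Matrix.diagonal fun c => (1 + ξ c * t)⁻¹ with hE
    have a1 := (Gm n v).map_piecewise_smul (fun _ => t)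
      (fun i => X.piecewise (fun _ => Matrix.diagonal ξ) y i * E) X
    have a2 := (Gm n v).map_piecewise_smul (fun _ => (-1 : ℂ))
      (fun i => X.piecewise (fun _ => 1) y i * E) X
    have a3 := (Gm n v).map_piecewise_add (fun _ => 1) (X.piecewise
      (fun i => (-1 : ℂ) • (X.piecewise (fun _ => 1) y i * E))
      (fun i => X.piecewise (fun _ => 1) y i * E)) X
    rw [Finset.sum_eq_single ∅, Finset.piecewise_empty, a2] at a3
    · rw [Finset.prod_const, smul_eq_mul] at a1 a3
      rw [mul_left_comm, mul_left_comm ((-1 : ℂ) ^ X.card), ← a1, ← a3]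
      congr 2
      funext i
      by_cases hi : i ∈ X
      · simp only [Finset.piecewise_eq_of_mem _ _ _ hi, Pi.add_apply, hE]
        ext a b
        by_cases hab : a = b
        · subst hab
          have := mul_inv_cancel₀ (ht' a)
          simp
          linear_combination this
        · simp [hab]
      · simp only [Finset.piecewise_eq_of_notMem _ _ _ hi]
    · intro s hs hs'
      obtain ⟨i, hi⟩ := Finset.nonempty_iff_ne_empty.2 hs'
      exact Gm_one (h i (mem_powerset.1 hs hi)) _ (Finset.piecewise_eq_of_mem _ _ _ hi)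
    · simp
  have hc := congrArg (fun p => Polynomial.coeff p (0 + X.card)) hrel
  simp only [Polynomial.coeff_X_pow_mul, Polynomial.coeff_C_mul] at hc
  rw [Polynomial.coeff_eq_zero_of_degree_lt (p := H (X.piecewise (fun _ => 1) y))
    (by simpa using Polynomial.mem_degreeLT.1 (hdeg _)), mul_zero,
    Polynomial.coeff_zero_eq_eval_zero, hev _ 0 (by simp)] at hc
  simpa using hc

theorem vanish {X : Finset (Fin N)} {u : Perm (Fin N) → ℚ} (h1 : Anti n u) (h2 : Symm n u)
    (h3 : Inv X u) (h4 : ∀ τ : Perm (Fin N), ∀ i ∈ X, τ i = i → u τ = 0)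
    (hX : n ^ 2 < N + X.card) : u = 0 := by
  classical
  obtain ⟨v, v1, v2, v3, rfl⟩ := exists_Om h1 h2 h3
  have hp : ∀ i ∈ X, ∀ I J, ptr n v i I J = 0 := fun i hi =>
    ptr_eq_zero fun τ hτ => h4 τ i hi hτ
  have hH : ∀ x : Matrix (Fin n) (Fin n) ℂ, x.IsHermitian → ∀ y,
      Gm n v (X.piecewise (fun _ => x) y) = 0 := by
    intro x hx y
    obtain ⟨U, W, D, hUW, hWU, e⟩ : ∃ (U W : Matrix (Fin n) (Fin n) ℂ) (D : Fin n → ℂ),
        U * W = 1 ∧ W * U = 1 ∧ x = U * Matrix.diagonal D * W :=
      ⟨hx.eigenvectorUnitary, star (hx.eigenvectorUnitary : Matrix (Fin n) (Fin n) ℂ), _,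
        by simp, by simp, by simpa using hx.spectral_theorem⟩
    have a1 := Gm_diag v2 hp hX D (fun i => W * y i * U)
    have a2 := Gm_mul_comm v (fun i => U * X.piecewise (fun _ => Matrix.diagonal D)
      (fun i => W * y i * U) i) W
    simp only [← mul_assoc, hWU, one_mul] at a2
    rw [← a1, ← a2]
    congr 1
    funext i
    by_cases hi : i ∈ X
    · simp only [Finset.piecewise_eq_of_mem _ _ _ hi, e]
    · simp only [Finset.piecewise_eq_of_notMem _ _ _ hi]
      rw [← mul_assoc, ← mul_assoc, hUW, one_mul, mul_assoc, hUW, mul_one]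
  have hall : ∀ z, Gm n v z = 0 := by
    intro z
    let M := (Gm n v).domDomRestrict (· ∈ X) (fun i => z i)
    have b1 : ∀ c : X → Matrix (Fin n) (Fin n) ℂ, (∀ i, (c i).IsHermitian) → M c = 0 := by
      intro c hc
      have b2 := pol M (selfAdjoint (Matrix (Fin n) (Fin n) ℂ)).toAddSubmonoid (fun x hx => by
        rw [← hH x hx z]
        simp only [M, MultilinearMap.domDomRestrict_apply]
        congr 1) c hc
      rw [Finset.sum_congr rfl (g := fun _ => M c), Finset.sum_const, nsmul_eq_mul] at b2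
      · exact (mul_eq_zero.1 b2).resolve_left (by exact_mod_cast card_ne_zero.2 univ_nonempty)
      · intro π _
        have hπ : Perm.ofSubtype π ∈ SB X := mem_SB.2 fun i hi =>
          Perm.ofSubtype_apply_of_not_mem π hi
        simp only [M, MultilinearMap.domDomRestrict_apply]
        rw [← Gm_comp v3 hπ (fun j => if h : j ∈ X then c ⟨j, h⟩ else z j)]
        congr 1
        funext i
        by_cases hi : i ∈ X
        · rw [Perm.ofSubtype_apply_of_mem π hi]
          simp [hi]
        · rw [Perm.ofSubtype_apply_of_not_mem π hi]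
          simp [hi]
    have b3 : M (fun i => z i) = 0 := by
      have e : (fun i : X => z i) = (fun i : X => (realPart (z i) : Matrix (Fin n) (Fin n) ℂ)) +
          fun i : X => Complex.I • (imaginaryPart (z i) : Matrix (Fin n) (Fin n) ℂ) := by
        funext i
        exact (realPart_add_I_smul_imaginaryPart (z i)).symm
      rw [e, M.map_add_univ]
      refine Finset.sum_eq_zero fun s _ => ?_
      have := M.map_smul_univ (s.piecewise (fun _ => 1) fun _ => Complex.I)
        (s.piecewise (fun i : X => (realPart (z i) : Matrix (Fin n) (Fin n) ℂ))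
          fun i : X => (imaginaryPart (z i) : Matrix (Fin n) (Fin n) ℂ))
      rw [b1 (s.piecewise _ _) (fun i => by
        by_cases hi : i ∈ s
        · rw [Finset.piecewise_eq_of_mem _ _ _ hi]
          exact (realPart (z i)).2
        · rw [Finset.piecewise_eq_of_notMem _ _ _ hi]
          exact (imaginaryPart (z i)).2), smul_zero] at this
      rw [← this]
      congr 1
      funext i
      by_cases hi : i ∈ s <;> simp [hi]
    rw [← b3]
    simp [M]
  have hv : v = 0 := sft v v1 fun I J => by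
    have := hall fun i => Matrix.single (I i) (J i) 1
    rw [Gm_apply, Finset.sum_eq_single I, Finset.sum_eq_single J] at this
    · simpa using this
    · intro J' _ hJ
      obtain ⟨i, hi⟩ := Function.ne_iff.1 hJ
      rw [Finset.prod_eq_zero (mem_univ i), mul_zero]
      simp [hi.symm]
    · simp
    · intro I' _ hI
      obtain ⟨i, hi⟩ := Function.ne_iff.1 hI
      refine Finset.sum_eq_zero fun J' _ => ?_
      rw [Finset.prod_eq_zero (mem_univ i), mul_zero]
      simp [hi.symm]
    · simp
  funext τ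
  simp [Om, hv]

end Pool.Agent.P.MP_ebce6b_al
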