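import Mathlib

/-!
Sums over Hamiltonian paths with forced steps are symmetrised products of segments.
-/

namespace Pool.Agent.P.MP_ebce6b_al

open Finset

variable {U : Type*} [Ring U]

open Classical in
/-- The sum, over the paths from `i` of `k` further distinct vertices in `T` and a last step to
`0` with all steps allowed by `ok`, of the products of the values. -/
noncomputable def V (ok : ℕ → ℕ → Prop) (val : ℕ → U) : ℕ → ℕ → Finset ℕ → U
  | 0, i, _ => if ok i 0 then 1 else 0
  | k + 1, i, T => ∑ j ∈ T, if ok i j then val j * V ok val k j (T.erase j) else 0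

open Classical in
theorem V_eq (ok : ℕ → ℕ → Prop) (val : ℕ → U) (k i : ℕ) (T : Finset ℕ) :
    V ok val k i T = ∑ g ∈ Fintype.piFinset (fun _ : Fin k => T),
      if Function.Injective g ∧ ∀ r : Fin (k + 1),
        ok ((Fin.cons i g : Fin (k + 1) → ℕ) r) ((Fin.snoc g 0 : Fin (k + 1) → ℕ) r)
      then (List.ofFn fun r => val (g r)).prod else 0 := by
  induction k generalizing i T with
  | zero =>
    simp [V, Function.injective_of_subsingleton, Fin.snoc]
  | succ k ih =>
    rw [V]
    simp only [ih, Finset.mul_sum]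
    have e : ∀ F : (Fin (k + 1) → ℕ) → U, ∑ g ∈ Fintype.piFinset (fun _ : Fin (k + 1) => T), F g =
        ∑ j ∈ T, ∑ g ∈ Fintype.piFinset (fun _ : Fin k => T), F (Fin.cons j g) := by
      intro F
      rw [← Finset.sum_product']
      refine Finset.sum_nbij' (fun g => (g 0, Fin.tail g)) (fun p => Fin.cons p.1 p.2)
        ?_ ?_ ?_ ?_ ?_
      · intro g hg
        simp only [Fintype.mem_piFinset, mem_product] at hg ⊢
        exact ⟨hg 0, fun r => hg _⟩
      · intro p hp
        simp only [Fintype.mem_piFinset, mem_product] at hp ⊢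
        exact fun r => Fin.cases hp.1 hp.2 r
      · simp
      · simp
      · simp
    rw [e]
    refine Finset.sum_congr rfl fun j _ => ?_
    have hc : ∀ g : Fin k → ℕ, (Function.Injective (Fin.cons j g : Fin (k + 1) → ℕ) ∧
        ∀ r : Fin (k + 2), ok ((Fin.cons i (Fin.cons j g : Fin (k + 1) → ℕ) : Fin (k + 2) → ℕ) r)
          ((Fin.snoc (Fin.cons j g : Fin (k + 1) → ℕ) 0 : Fin (k + 2) → ℕ) r)) ↔
        ok i j ∧ (∀ r, g r ≠ j) ∧ (Function.Injective g ∧ ∀ r : Fin (k + 1),
          ok ((Fin.cons j g : Fin (k + 1) → ℕ) r) ((Fin.snoc g 0 : Fin (k + 1) → ℕ) r)) := by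
      intro g
      rw [Fin.cons_injective_iff, Fin.forall_fin_succ, ← Fin.cons_snoc_eq_snoc_cons]
      simp only [Fin.cons_zero, Fin.cons_succ, Set.mem_range, not_exists]
      tauto
    simp only [hc]
    by_cases h : ok i j
    · simp only [h, if_true, true_and]
      have : Fintype.piFinset (fun _ : Fin k => T.erase j) =
          (Fintype.piFinset fun _ : Fin k => T).filter fun g => ∀ r, g r ≠ j := by
        ext g
        simp only [Fintype.mem_piFinset, mem_erase, mem_filter]
        exact ⟨fun h => ⟨fun r => (h r).2, fun r => (h r).1⟩, fun h r => ⟨h.2 r, h.1 r⟩⟩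
      rw [this, Finset.sum_filter]
      refine Finset.sum_congr rfl fun g _ => ?_
      by_cases h1 : ∀ r, g r ≠ j
      · simp only [h1, ne_eq, not_false_eq_true, implies_true, true_and]
        split_ifs <;> simp [List.ofFn_succ]
      · simp only [if_neg h1]
        rw [if_neg fun h2 => h1 h2.1]
    · simp [h]

/-- Paths through all of `T`. -/
noncomputable def W (ok : ℕ → ℕ → Prop) (val : ℕ → U) (i : ℕ) (T : Finset ℕ) : U :=
  V ok val T.card i T

open Classical in
theorem W_empty (ok : ℕ → ℕ → Prop) (val : ℕ → U) (i : ℕ) :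
    W ok val i ∅ = if ok i 0 then 1 else 0 := rfl

open Classical in
theorem W_step (ok : ℕ → ℕ → Prop) (val : ℕ → U) (i : ℕ) {T : Finset ℕ} (hT : T.Nonempty) :
    W ok val i T = ∑ j ∈ T, if ok i j then val j * W ok val j (T.erase j) else 0 := by
  obtain ⟨k, hk⟩ : ∃ k, T.card = k + 1 := ⟨T.card - 1, by have := hT.card_pos; omega⟩
  rw [W, hk, V]
  refine Finset.sum_congr rfl fun j hj => ?_
  rw [W, card_erase_of_mem hj, hk, Nat.add_sub_cancel]

/-- From a point of `B` any step is allowed, from any other point only the cyclic successor. -/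
def okB (L : ℕ) (B : Finset ℕ) (a b : ℕ) : Prop := a ∈ B ∨ b = if a = L then 0 else a + 1

/-- The product of `m` consecutive values from `a` on. -/
def pr (val : ℕ → U) (a m : ℕ) : U := ((List.range' a m).map val).prod

theorem W_dead {L : ℕ} {B : Finset ℕ} (val : ℕ → U) {a : ℕ} (ha : a ∉ B) (haL : a ≠ L)
    (T : Finset ℕ) (h1 : a ∈ T) (h2 : a + 1 ∉ T) (i : ℕ) : W (okB L B) val i T = 0 := by
  induction T using Finset.strongInduction generalizing i with
  | H T ih =>
    rw [W_step _ _ _ ⟨a, h1⟩]
    refine Finset.sum_eq_zero fun j hj => ?_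
    split_ifs
    · by_cases hja : j = a
      · subst hja
        rcases (T.erase j).eq_empty_or_nonempty with h | h
        · rw [h, W_empty, if_neg, mul_zero]
          simp [okB, ha, haL]
        · rw [W_step _ _ _ h, Finset.sum_eq_zero, mul_zero]
          intro l hl
          rw [if_neg]
          simp only [okB, ha, haL, if_false, false_or]
          rintro rfl
          exact h2 (mem_of_mem_erase hl)
      · rw [ih _ (erase_ssubset hj) (mem_erase.2 ⟨Ne.symm hja, h1⟩)
          (fun h => h2 (mem_of_mem_erase h)), mul_zero]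
    · rfl

theorem W_run {L : ℕ} {B : Finset ℕ} (val : ℕ → U) (m : ℕ) : ∀ (i : ℕ) (T : Finset ℕ),
    (∀ a, i ≤ a → a < i + m → a ∉ B) → i + m ≤ L → Ioc i (i + m) ⊆ T →
    W (okB L B) val i T = pr val (i + 1) m * W (okB L B) val (i + m) (T \ Ioc i (i + m)) := by
  induction m with
  | zero => simp [pr]
  | succ m ih =>
    intro i T h1 h2 h3
    have hi : i + 1 ∈ T := h3 (by simp)
    have hB : i ∉ B := h1 i le_rfl (by omega)
    have hL : i ≠ L := by omega
    rw [W_step _ _ _ ⟨_, hi⟩, Finset.sum_eq_single (i + 1), if_pos (by simp [okB, hL]),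
      ih (i + 1) _ (fun a ha ha' => h1 a (by omega) (by omega)) (by omega)]
    · have e1 : T.erase (i + 1) \ Ioc (i + 1) (i + 1 + m) = T \ Ioc i (i + (m + 1)) := by
        ext a
        simp only [mem_sdiff, mem_erase, mem_Ioc]
        constructor
        · exact fun h => ⟨h.1.2, by omega⟩
        · exact fun h => ⟨⟨by omega, h.1⟩, by omega⟩
      rw [e1, show i + 1 + m = i + (m + 1) by omega, ← mul_assoc]
      simp [pr, List.range'_succ]
    · intro a ha
      simp only [mem_erase, mem_Ioc] at ha ⊢
      exact ⟨by omega, h3 (mem_Ioc.2 (by omega))⟩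
    · intro j _ hj
      rw [if_neg]
      simp [okB, hB, hL, hj]
    · exact fun h => absurd hi h

theorem W_enter {L : ℕ} {B : Finset ℕ} (val : ℕ → U) {a c : ℕ} (hac : a < c) (hc : c ≤ L)
    (h : ∀ x, a < x → x < c → x ∉ B) {T : Finset ℕ} (hT : Ioc a c ⊆ T) :
    val (a + 1) * W (okB L B) val (a + 1) (T.erase (a + 1)) =
      pr val (a + 1) (c - a) * W (okB L B) val c (T \ Ioc a c) := by
  obtain ⟨m, rfl⟩ : ∃ m, c = a + 1 + m := ⟨c - (a + 1), by omega⟩
  rw [W_run val m (a + 1) _ (fun x hx hx' => h x (by omega) hx') hc]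
  · have e1 : T.erase (a + 1) \ Ioc (a + 1) (a + 1 + m) = T \ Ioc a (a + 1 + m) := by
      ext x
      simp only [mem_sdiff, mem_erase, mem_Ioc]
      constructor
      · exact fun h => ⟨h.1.2, by omega⟩
      · exact fun h => ⟨⟨by omega, h.1⟩, by omega⟩
    rw [e1, show a + 1 + m - a = m + 1 by omega, ← mul_assoc]
    simp [pr, List.range'_succ]
  · intro x hx
    simp only [mem_erase, mem_Ioc] at hx ⊢
    exact ⟨by omega, hT (mem_Ioc.2 (by omega))⟩

theorem W_seg {L n : ℕ} {B : Finset ℕ} (val : ℕ → U) (β : ℕ → ℕ)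
    (hm : ∀ a b, a < b → b ≤ n → β a < β b) (hL : β n ≤ L) (h1 : ∀ k ≤ n, β k ∈ B)
    (h2 : ∀ a ∈ B, ∃ k ≤ n, a = β k) (Θ : Finset ℕ) (hΘ : ∀ k ∈ Θ, k < n) (i : ℕ) (hi : i ∈ B)
    (i' : ℕ) :
    W (okB L B) val i (Θ.biUnion (fun k => Ioc (β k) (β (k + 1))) ∪ Ioc (β n) L) =
      W (fun _ _ => True) (fun k => pr val (β k + 1) (β (k + 1) - β k)) i' Θ *
        pr val (β n + 1) (L - β n) := by
  have hle : ∀ a b, a ≤ b → b ≤ n → β a ≤ β b := fun a b hab hb => by
    rcases hab.eq_or_lt with rfl | h
    · exact le_rfl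
    · exact (hm a b h hb).le
  have hgap : ∀ k < n, ∀ x, β k < x → x < β (k + 1) → x ∉ B := by
    intro k hk x hx hx' hB
    obtain ⟨l, hl, rfl⟩ := h2 x hB
    rcases le_or_gt l k with h | h
    · exact absurd (hle l k h hk.le) (by omega)
    · exact absurd (hle (k + 1) l h hl) (by omega)
  have htail : ∀ x, β n < x → x ∉ B := by
    intro x hx hB
    obtain ⟨l, hl, rfl⟩ := h2 x hB
    exact absurd (hle l n hl le_rfl) (by omega)
  induction Θ using Finset.strongInduction generalizing i i' with
  | H Θ ih =>
    rcases Θ.eq_empty_or_nonempty with rfl | hne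
    · simp only [biUnion_empty, empty_union, W_empty, if_true, one_mul]
      rcases hL.eq_or_lt with h | h
      · simp [h, W_empty, okB, hi, pr]
      · have hmem : β n + 1 ∈ Ioc (β n) L := mem_Ioc.2 (by omega)
        rw [W_step _ _ _ ⟨_, hmem⟩, Finset.sum_eq_single (β n + 1),
          if_pos (show okB L B i (β n + 1) from Or.inl hi),
          W_enter val h le_rfl (fun x hx _ => htail x hx) (Subset.refl _)]
        · simp [W_empty, okB]
        · intro j hj hj'
          rw [mem_Ioc] at hj
          rw [W_dead val (a := j - 1) (htail _ (by omega)) (by omega) _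
            (by simp only [mem_erase, mem_Ioc]; omega)
            (by simp only [mem_erase, mem_Ioc]; omega)]
          simp
        · exact fun h => absurd hmem h
    · set T := Θ.biUnion (fun k => Ioc (β k) (β (k + 1))) ∪ Ioc (β n) L with hT
      have hsub : ∀ k ∈ Θ, Ioc (β k) (β (k + 1)) ⊆ T := fun k hk =>
        (subset_biUnion_of_mem (fun k => Ioc (β k) (β (k + 1))) hk).trans subset_union_left
      have hhead : ∀ k ∈ Θ, β k + 1 ∈ T := fun k hk => hsub k hk
        (mem_Ioc.2 ⟨by omega, hm k (k + 1) (by omega) (hΘ k hk)⟩)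
      obtain ⟨k0, hk0⟩ := hne
      rw [W_step _ _ _ ⟨_, hhead k0 hk0⟩, W_step _ _ _ ⟨k0, hk0⟩, Finset.sum_mul]
      simp only [show ∀ j, okB L B i j from fun j => Or.inl hi, if_true]
      rw [← Finset.sum_subset (s₁ := Θ.image fun k => β k + 1), Finset.sum_image]
      · refine Finset.sum_congr rfl fun k hk => ?_
        have hk' := hΘ k hk
        rw [W_enter val (hm k (k + 1) (by omega) hk') ((hle _ _ hk' le_rfl).trans hL)
          (hgap k hk') (hsub k hk), mul_assoc,
          ← ih (Θ.erase k) (erase_ssubset hk) (fun l hl => hΘ l (mem_of_mem_erase hl))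
            (β (k + 1)) (h1 _ hk') k]
        congr 2
        ext x
        simp only [hT, mem_sdiff, mem_union, mem_biUnion, mem_Ioc, mem_erase]
        constructor
        · rintro ⟨⟨l, hl, hx⟩ | hx, hn⟩
          · exact Or.inl ⟨l, ⟨fun e => hn (e ▸ hx), hl⟩, hx⟩
          · exact Or.inr hx
        · rintro (⟨l, ⟨hlk, hl⟩, hx⟩ | hx)
          · refine ⟨Or.inl ⟨l, hl, hx⟩, ?_⟩
            have hl' := hΘ l hl
            rcases lt_or_gt_of_ne hlk with h | h
            · have := hle (l + 1) k h hk'.le
              omega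
            · have := hle (k + 1) l h hl'.le
              omega
          · refine ⟨Or.inr hx, ?_⟩
            have := hle (k + 1) n hk' le_rfl
            omega
      · intro a ha b hb e
        by_contra hab
        rcases lt_or_gt_of_ne hab with h | h
        · have := hm a b h (hΘ b hb).le
          simp only at e
          omega
        · have := hm b a h (hΘ a ha).le
          simp only at e
          omega
      · intro x hx
        obtain ⟨k, hk, rfl⟩ := mem_image.1 hx
        exact hhead k hk
      · intro j hj hj'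
        rcases mem_union.1 hj with h | h
        · obtain ⟨k, hk, hx⟩ := mem_biUnion.1 h
          rw [mem_Ioc] at hx
          have hk' := hΘ k hk
          have hne : j ≠ β k + 1 := fun e => hj' (mem_image.2 ⟨k, hk, e.symm⟩)
          have := hle (k + 1) n hk' le_rfl
          rw [W_dead val (a := j - 1) (hgap k hk' _ (by omega) (by omega)) (by omega) _
            (mem_erase.2 ⟨by omega, hsub k hk (mem_Ioc.2 (by omega))⟩)
            (by rw [show j - 1 + 1 = j by omega]; simp), mul_zero]
        · rw [mem_Ioc] at h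
          by_cases hne : j = β n + 1
          · subst hne
            have hk' := hΘ k0 hk0
            have h5 := hm k0 (k0 + 1) (by omega) hk'
            have h6 := hle (k0 + 1) n hk' le_rfl
            rw [W_enter val (by omega : β n < L) le_rfl (fun x hx _ => htail x hx)
              subset_union_right, W_step _ _ _ ⟨β k0 + 1, mem_sdiff.2 ⟨hhead k0 hk0, by
                simp only [mem_Ioc]; omega⟩⟩, Finset.sum_eq_zero, mul_zero]
            intro l hl
            rw [if_neg]
            simp only [okB, htail L (by omega), if_true, false_or]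
            rintro rfl
            simp [hT] at hl
          · rw [W_dead val (a := j - 1) (htail _ (by omega)) (by omega) _
              (mem_erase.2 ⟨by omega, mem_union_right _ (mem_Ioc.2 (by omega))⟩)
              (by rw [show j - 1 + 1 = j by omega]; simp), mul_zero]

theorem W_main {L n : ℕ} {B : Finset ℕ} (val : ℕ → U) (hB : B.card = n + 1)
    (hL : ∀ a ∈ B, a ≤ L) : ∃ (p q : U) (a m : ℕ → ℕ), (∀ k < n, 1 ≤ a k ∧ 1 ≤ m k ∧
      a k + m k ≤ L + 1) ∧ W (okB L B) val 0 (Ioc 0 L) =
      p * W (fun _ _ => True) (fun k => pr val (a k) (m k)) 0 (range n) * q := by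
  let β : ℕ → ℕ := fun k => B.orderEmbOfFin hB ⟨min k n, by omega⟩
  have hm : ∀ a b, a < b → b ≤ n → β a < β b := fun a b hab hb =>
    (B.orderEmbOfFin hB).strictMono (by simp only [Fin.mk_lt_mk]; omega)
  have h1 : ∀ k, β k ∈ B := fun k => B.orderEmbOfFin_mem hB _
  have h2 : ∀ a ∈ B, ∃ k ≤ n, a = β k := by
    intro a ha
    have : a ∈ Set.range (B.orderEmbOfFin hB) := by rw [B.range_orderEmbOfFin]; exact ha
    obtain ⟨k, rfl⟩ := this
    have hk := k.2
    refine ⟨k, by omega, ?_⟩
    simp only [β]
    congr 1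
    ext
    simp only
    omega
  have hle : ∀ a b, a ≤ b → b ≤ n → β a ≤ β b := fun a b hab hb => by
    rcases hab.eq_or_lt with rfl | h
    · exact le_rfl
    · exact (hm a b h hb).le
  refine ⟨pr val 1 (β 0), pr val (β n + 1) (L - β n), fun k => β k + 1,
    fun k => β (k + 1) - β k, fun k hk => ?_, ?_⟩
  · have := hm k (k + 1) (by omega) hk
    have := hL _ (h1 (k + 1))
    simp only
    omega
  have h0 := hL _ (h1 0)
  rw [W_run val (β 0) 0 _ ?_ (by omega) (Ioc_subset_Ioc_right (by omega)), mul_assoc,
    ← W_seg val β hm (hL _ (h1 n)) (fun k _ => h1 k) h2 (range n) (by simp) (β 0) (h1 0) 0]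
  · simp only [zero_add]
    congr 2
    have : ∀ k ≤ n, (range k).biUnion (fun k => Ioc (β k) (β (k + 1))) = Ioc (β 0) (β k) := by
      intro k hk
      induction k with
      | zero => simp
      | succ k ih =>
        rw [range_add_one, biUnion_insert, ih (by omega), union_comm,
          Ioc_union_Ioc_eq_Ioc (hle 0 k (by omega) (by omega)) (hle k (k + 1) (by omega) hk)]
    rw [this n le_rfl, Ioc_union_Ioc_eq_Ioc (hle 0 n (by omega) le_rfl) (hL _ (h1 n))]
    ext x
    simp only [mem_sdiff, mem_Ioc]
    omega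
  · intro a _ ha hB
    obtain ⟨k, hk, rfl⟩ := h2 a hB
    have := hle 0 k (by omega) hk
    omega

end Pool.Agent.P.MP_ebce6b_al
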