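import Pool.Agent.P.MP_ebce6b_al.Form
import Pool.Agent.P.MP_ebce6b_al.Seg

/-!
The functional on full cycles attached to a linear functional on an algebra.
-/

namespace Pool.Agent.P.MP_ebce6b_al

open Finset Equiv

variable {U : Type*} [Ring U] {L n : ℕ}

/-- The word read along the ordering `e`. -/
def wd (val : Fin (L + 1) → U) (e : Perm (Fin (L + 1))) : U :=
  (List.ofFn fun k : Fin L => val (e k.succ)).prod

theorem W_true (seg : ℕ → U) : W (fun _ _ => True) seg 0 (range n) =
    ∑ π : Perm (Fin n), (List.ofFn fun r => seg (π r)).prod := by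
  classical
  rw [W, card_range, V_eq]
  simp only [implies_true, and_true]
  rw [← Finset.sum_filter]
  symm
  refine Finset.sum_bij (fun π _ => fun r => (π r : ℕ)) ?_ ?_ ?_ fun _ _ => rfl
  · intro π _
    simp only [mem_filter, Fintype.mem_piFinset, mem_range, Fin.is_lt, implies_true, true_and]
    exact Fin.val_injective.comp π.injective
  · intro a _ b _ h
    ext r
    exact congrFun h r
  · intro g hg
    simp only [mem_filter, Fintype.mem_piFinset, mem_range] at hg
    have hi : Function.Injective fun r => (⟨g r, hg.1 r⟩ : Fin n) := fun a b h =>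
      hg.2 (congrArg Fin.val h)
    exact ⟨Equiv.ofBijective _ ⟨hi, Finite.injective_iff_surjective.1 hi⟩, mem_univ _, rfl⟩

theorem W_perm (val : Fin (L + 1) → U) (B : Finset (Fin (L + 1))) :
    W (okB L (B.map Fin.valEmbedding)) (fun a => if h : a < L + 1 then val ⟨a, h⟩ else 0) 0
      (Ioc 0 L) = ∑ e : Perm (Fin (L + 1)),
      if e 0 = 0 ∧ ∀ j ∉ B, (e * finRotate (L + 1) * e⁻¹) j = finRotate (L + 1) j
      then wd val e else 0 := by
  classical
  rw [W, Nat.card_Ioc, Nat.sub_zero, V_eq, ← Finset.sum_filter, ← Finset.sum_filter]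
  have key : ∀ e : Perm (Fin (L + 1)), e 0 = 0 →
      ((∀ r : Fin (L + 1), okB L (B.map Fin.valEmbedding)
        ((Fin.cons 0 (fun k : Fin L => (e k.succ : ℕ)) : Fin (L + 1) → ℕ) r)
        ((Fin.snoc (fun k : Fin L => (e k.succ : ℕ)) 0 : Fin (L + 1) → ℕ) r)) ↔
      ∀ j ∉ B, (e * finRotate (L + 1) * e⁻¹) j = finRotate (L + 1) j) := by
    intro e he
    have h1 : (Fin.cons 0 (fun k : Fin L => (e k.succ : ℕ)) : Fin (L + 1) → ℕ) =
        fun r => (e r : ℕ) := by
      funext r
      refine Fin.cases ?_ (fun k => ?_) r <;> simp [he]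
    rw [Fin.snoc_eq_cons_rotate, h1]
    have h2 : ∀ a b : Fin (L + 1), okB L (B.map Fin.valEmbedding) a b ↔
        (a ∉ B → b = finRotate (L + 1) a) := by
      intro a b
      have h3 : (a : ℕ) ∈ B.map Fin.valEmbedding ↔ a ∈ B := mem_map' Fin.valEmbedding
      have h4 : (a : ℕ) = L ↔ a = Fin.last L := by rw [Fin.ext_iff, Fin.val_last]
      rw [okB, h3, Fin.ext_iff, coe_finRotate]
      simp only [h4]
      tauto
    simp only [h2]
    constructor
    · intro h j hj
      simpa using h (e⁻¹ j) (by simpa using hj)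
    · intro h r hr
      simpa using h (e r) hr
  symm
  refine Finset.sum_bij (fun e _ => fun k : Fin L => (e k.succ : ℕ)) ?_ ?_ ?_ ?_
  · intro e he
    simp only [mem_filter, mem_univ, true_and] at he
    simp only [mem_filter, Fintype.mem_piFinset, mem_Ioc]
    refine ⟨fun k => ⟨?_, Nat.lt_succ_iff.1 (e k.succ).2⟩,
      Fin.val_injective.comp (e.injective.comp (Fin.succ_injective L)), (key e he.1).2 he.2⟩
    rw [Nat.pos_iff_ne_zero]
    intro h
    have : e k.succ = e 0 := by rw [he.1]; exact Fin.ext h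
    exact Fin.succ_ne_zero k (e.injective this)
  · intro a ha b hb h
    simp only [mem_filter, mem_univ, true_and] at ha hb
    ext r
    refine Fin.cases ?_ (fun k => congrFun h k) r
    rw [ha.1, hb.1]
  · intro g hg
    simp only [mem_filter, Fintype.mem_piFinset, mem_Ioc] at hg
    have hi : Function.Injective (Fin.cons 0 (fun k : Fin L =>
        (⟨g k, Nat.lt_succ_of_le (hg.1 k).2⟩ : Fin (L + 1))) : Fin (L + 1) → Fin (L + 1)) := by
      rw [Fin.cons_injective_iff]
      refine ⟨?_, fun a b h => hg.2.1 (congrArg Fin.val h)⟩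
      rintro ⟨k, hk⟩
      exact (hg.1 k).1.ne' (congrArg Fin.val hk)
    refine ⟨Equiv.ofBijective _ ⟨hi, Finite.injective_iff_surjective.1 hi⟩, ?_, rfl⟩
    simp only [mem_filter, mem_univ, true_and]
    exact ⟨rfl, (key _ rfl).1 hg.2.2⟩
  · intro e _
    simp only [wd, Fin.is_lt, dif_pos, Fin.eta]

theorem pr_mem (S : NonUnitalSubsemiring U) (val : ℕ → U) (m : ℕ) : ∀ a,
    (∀ x, a ≤ x → x ≤ a + m → val x ∈ S) → pr val a (m + 1) ∈ S := by
  induction m with
  | zero => exact fun a h => by simpa [pr] using h a le_rfl le_rfl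
  | succ m ih =>
    intro a h
    have := S.mul_mem (h a le_rfl (by omega))
      (ih (a + 1) fun x hx hx' => h x (by omega) (by omega))
    simpa [pr, List.range'_succ] using this

variable [Algebra ℚ U]

theorem sym_zero (S : NonUnitalSubsemiring U) (f : U →ₗ[ℚ] ℚ)
    (hf : ∀ p q : U, ∀ a ∈ S, f (p * a ^ n * q) = 0) (p q : U) (c : Fin n → U)
    (hc : ∀ i, c i ∈ S) :
    f (p * (∑ π : Perm (Fin n), (List.ofFn fun r => c (π r)).prod) * q) = 0 := by
  have := pol ((f ∘ₗ LinearMap.mulRight ℚ q ∘ₗ LinearMap.mulLeft ℚ p).compMultilinearMap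
    (MultilinearMap.mkPiAlgebraFin ℚ n U)) S.toAddSubmonoid (fun a ha => by
      simpa using hf p q a ha) c hc
  simpa [Finset.mul_sum, Finset.sum_mul] using this

theorem razmyslov (S : NonUnitalSubsemiring U) (f : U →ₗ[ℚ] ℚ)
    (hf : ∀ p q : U, ∀ a ∈ S, f (p * a ^ n * q) = 0) (val : Fin (L + 1) → U)
    (hval : ∀ k : Fin L, val k.succ ∈ S) (B : Finset (Fin (L + 1))) (hB : B.card = n + 1) :
    f (∑ e : Perm (Fin (L + 1)),
      if e 0 = 0 ∧ ∀ j ∉ B, (e * finRotate (L + 1) * e⁻¹) j = finRotate (L + 1) j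
      then wd val e else 0) = 0 := by
  rw [← W_perm]
  obtain ⟨p, q, a, m, h, e⟩ := W_main (L := L) (n := n) (B := B.map Fin.valEmbedding)
    (fun a => if h : a < L + 1 then val ⟨a, h⟩ else 0) (by simpa using hB) (fun a ha => by
      obtain ⟨b, -, rfl⟩ := mem_map.1 ha
      exact Nat.lt_succ_iff.1 b.2)
  rw [e, W_true]
  refine sym_zero S f hf p q (fun i => pr _ (a i) (m i)) fun i => ?_
  obtain ⟨h1, h2, h3⟩ := h i i.2
  obtain ⟨k, hk⟩ : ∃ k, m i = k + 1 := ⟨m i - 1, by omega⟩
  rw [hk]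
  refine pr_mem S _ k _ fun x hx hx' => ?_
  rw [dif_pos (by omega)]
  obtain ⟨y, rfl⟩ : ∃ y, x = y + 1 := ⟨x - 1, by omega⟩
  exact hval ⟨y, by omega⟩

/-- The function on full cycles: the value of `f` on the word read along the cycle from `0`. -/
noncomputable def uf (f : U →ₗ[ℚ] ℚ) (val : Fin (L + 1) → U) (τ : Perm (Fin (L + 1))) : ℚ :=
  ∑ e : Perm (Fin (L + 1)),
    if e 0 = 0 ∧ τ = e * finRotate (L + 1) * e⁻¹ then f (wd val e) else 0

theorem uf_support {f : U →ₗ[ℚ] ℚ} {val : Fin (L + 1) → U} {τ : Perm (Fin (L + 1))}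
    (h : uf f val τ ≠ 0) : ∃ e : Perm (Fin (L + 1)), τ = e * finRotate (L + 1) * e⁻¹ := by
  obtain ⟨e, -, he⟩ := Finset.exists_ne_zero_of_sum_ne_zero h
  refine ⟨e, ?_⟩
  by_contra hc
  exact he (if_neg fun h => hc h.2)

theorem uf_symm (S : NonUnitalSubsemiring U) (f : U →ₗ[ℚ] ℚ)
    (hf : ∀ p q : U, ∀ a ∈ S, f (p * a ^ n * q) = 0) (val : Fin (L + 1) → U)
    (hval : ∀ k : Fin L, val k.succ ∈ S) : Symm n (uf f val) := by
  intro σ B hB
  have e1 : ∑ π ∈ SB B, uf f val (σ * π) = ∑ e : Perm (Fin (L + 1)),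
      if e 0 = 0 ∧ ∀ j ∉ B, (e * finRotate (L + 1) * e⁻¹) j = σ j then f (wd val e) else 0 := by
    simp only [uf]
    rw [Finset.sum_comm]
    refine Finset.sum_congr rfl fun e _ => ?_
    split_ifs with h
    · rw [Finset.sum_eq_single (σ⁻¹ * (e * finRotate (L + 1) * e⁻¹)), if_pos ⟨h.1, by group⟩]
      · intro π _ hπ
        refine if_neg fun h' => hπ ?_
        rw [← h'.2]
        group
      · intro hc
        refine absurd (mem_SB.2 fun j hj => ?_) hc
        rw [Perm.mul_apply, h.2 j hj]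
        simp
    · refine Finset.sum_eq_zero fun π hπ => if_neg fun h' => h ⟨h'.1, fun j hj => ?_⟩
      rw [← h'.2, Perm.mul_apply, mem_SB.1 hπ j hj]
  rw [e1]
  by_cases hex : ∃ e : Perm (Fin (L + 1)),
      e 0 = 0 ∧ ∀ j ∉ B, (e * finRotate (L + 1) * e⁻¹) j = σ j
  · obtain ⟨d, hd0, hd⟩ := hex
    have := razmyslov S f hf (fun i => val (d i)) (fun k => by
      obtain ⟨l, hl⟩ := Fin.exists_succ_eq.2 (show d k.succ ≠ 0 from fun h =>
        Fin.succ_ne_zero k (d.injective (h.trans hd0.symm)))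
      rw [← hl]
      exact hval l) (B.map (d⁻¹ : Perm (Fin (L + 1))).toEmbedding) (by simpa using hB)
    rw [map_sum] at this
    refine Eq.trans ?_ this
    rw [← Equiv.sum_comp (Equiv.mulLeft d)]
    refine Finset.sum_congr rfl fun e _ => ?_
    have hiff : ((d * e) 0 = 0 ∧ ∀ j ∉ B, (d * e * finRotate (L + 1) * (d * e)⁻¹) j = σ j) ↔
        (e 0 = 0 ∧ ∀ j ∉ B.map (d⁻¹ : Perm (Fin (L + 1))).toEmbedding,
          (e * finRotate (L + 1) * e⁻¹) j = finRotate (L + 1) j) := by
      refine and_congr ?_ ?_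
      · rw [Perm.mul_apply]
        exact ⟨fun h => d.injective (h.trans hd0.symm), fun h => by rw [h, hd0]⟩
      · constructor
        · intro h j hj
          have hj' : d j ∉ B := fun h' => hj (mem_map.2 ⟨d j, h', by simp⟩)
          apply d.injective
          have := (h _ hj').trans (hd _ hj').symm
          simpa [-finRotate_apply] using this
        · intro h j hj
          have hj' : d⁻¹ j ∉ B.map (d⁻¹ : Perm (Fin (L + 1))).toEmbedding := fun h' => by
            obtain ⟨l, hl, e⟩ := mem_map.1 h'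
            exact hj ((d⁻¹ : Perm (Fin (L + 1))).injective e ▸ hl)
          rw [← hd j hj]
          have := congrArg d (h _ hj')
          simpa [-finRotate_apply] using this
    simp only [Equiv.coe_mulLeft, hiff]
    split_ifs
    · rfl
    · simp
  · exact Finset.sum_eq_zero fun e _ => if_neg fun h => hex ⟨e, h⟩

theorem uf_anti {f : U →ₗ[ℚ] ℚ} {val : Fin (L + 1) → U} (h : Symm n (uf f val)) :
    Anti n (uf f val) := by
  intro σ B hB
  rw [← mul_zero (((Perm.sign σ * Perm.sign (finRotate (L + 1)) : ℤˣ) : ℤ) : ℚ), ← h σ B hB,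
    Finset.mul_sum]
  refine Finset.sum_congr rfl fun π _ => ?_
  by_cases h0 : uf f val (σ * π) = 0
  · simp [h0]
  · obtain ⟨e, he⟩ := uf_support h0
    have h1 := congrArg Perm.sign he
    rw [Perm.sign_mul, Perm.sign_mul, Perm.sign_mul, Perm.sign_inv, mul_right_comm,
      Int.units_mul_self, one_mul] at h1
    rw [← h1, ← mul_assoc, Int.units_mul_self, one_mul]

theorem uf_inv (f : U →ₗ[ℚ] ℚ) (val : Fin (L + 1) → U) {X : Finset (Fin (L + 1))}
    (h0 : (0 : Fin (L + 1)) ∉ X) {c : U} (hc : ∀ i ∈ X, val i = c) : Inv X (uf f val) := by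
  intro h hh σ
  simp only [uf]
  rw [← Equiv.sum_comp (Equiv.mulLeft h)]
  refine Finset.sum_congr rfl fun e _ => ?_
  have h1 := mem_SB.1 hh 0 h0
  have hiff : ((h * e) 0 = 0 ∧ h * σ * h⁻¹ = h * e * finRotate (L + 1) * (h * e)⁻¹) ↔
      (e 0 = 0 ∧ σ = e * finRotate (L + 1) * e⁻¹) := by
    refine and_congr ?_ ?_
    · rw [Perm.mul_apply]
      exact ⟨fun h' => h.injective (h'.trans h1.symm), fun h' => by rw [h', h1]⟩
    · constructor
      · intro h'
        rw [show σ = h⁻¹ * (h * σ * h⁻¹) * h by group, h']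
        group
      · rintro rfl
        group
  have hw : wd val (h * e) = wd val e := by
    simp only [wd]
    congr 2
    funext k
    rw [Perm.mul_apply]
    by_cases hk : e k.succ ∈ X
    · rw [hc _ hk, hc _ (SB_maps hh hk)]
    · rw [mem_SB.1 hh _ hk]
  simp only [Equiv.coe_mulLeft, hiff, hw]

theorem uf_rot (f : U →ₗ[ℚ] ℚ) (val : Fin (L + 1) → U) :
    uf f val (finRotate (L + 1)) = f (wd val 1) := by
  rw [uf, Finset.sum_eq_single 1]
  · simp
  · intro e _ he
    refine if_neg fun h => he ?_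
    have h2 : ∀ r, e (r + 1) = e r + 1 := fun r => by
      have := congrArg (fun τ : Perm (Fin (L + 1)) => τ (e r)) h.2
      simpa using this.symm
    ext r
    congr 1
    induction r using Fin.induction with
    | zero => exact h.1
    | succ r ih => rw [← Fin.coeSucc_eq_succ, h2, ih]; rfl
  · simp

theorem core (S : NonUnitalSubsemiring U) (f : U →ₗ[ℚ] ℚ)
    (hf : ∀ p q : U, ∀ a ∈ S, f (p * a ^ n * q) = 0) (x : Fin L → U) (hx : ∀ k, x k ∈ S)
    (T : Finset (Fin L)) (c : U) (hc : ∀ i ∈ T, x i = c) (h : n ^ 2 ≤ L + T.card) :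
    f (List.ofFn x).prod = 0 := by
  have h1 := uf_symm S f hf (Fin.cons 0 x) hx
  have h2 := vanish (X := T.map (Fin.succEmb L)) (uf_anti h1) h1
    (uf_inv f _ (by simp) (c := c) (fun i hi => by
      obtain ⟨k, hk, rfl⟩ := mem_map.1 hi
      exact hc k hk))
    (fun τ i hi hτ => by
      by_contra h0
      obtain ⟨e, rfl⟩ := uf_support h0
      obtain ⟨k, -, rfl⟩ := mem_map.1 hi
      obtain ⟨l, rfl⟩ : ∃ l, L = l + 1 := ⟨L - 1, by have := k.pos; omega⟩
      have h3 : finRotate (l + 2) (e⁻¹ (Fin.succEmb _ k)) = e⁻¹ (Fin.succEmb _ k) := by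
        rw [Perm.eq_inv_iff_eq]
        exact hτ
      exact Perm.mem_support.1 (by rw [support_finRotate]; exact mem_univ _) h3)
    (by rw [card_map]; omega)
  have h3 := uf_rot f (Fin.cons 0 x : Fin (L + 1) → U)
  rw [h2] at h3
  simpa [wd] using h3.symm

end Pool.Agent.P.MP_ebce6b_al
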