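import Pool.Agent.P.MP_ebce6b_al.SFT

/-!
The Gram operator of the trace form of tensor space, and its inverse on the box ideal.
-/

namespace Pool.Agent.P.MP_ebce6b_al

open Finset Equiv

variable {N : ℕ}

/-- The number of colourings fixed by `g`. -/
def cnt (n : ℕ) (g : Perm (Fin N)) : ℚ := ∑ I : Fin N → Fin n, if I ∘ g = I then 1 else 0

/-- The Gram operator. -/
def Om (n : ℕ) (v : Perm (Fin N) → ℚ) (τ : Perm (Fin N)) : ℚ := ∑ g, cnt n g * v (τ * g)

/-- Precomposition with a permutation. -/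
def preE (n : ℕ) (τ : Perm (Fin N)) : (Fin N → Fin n) ≃ (Fin N → Fin n) where
  toFun I := I ∘ τ
  invFun I := I ∘ (τ⁻¹ : Perm (Fin N))
  left_inv I := by funext i; simp
  right_inv I := by funext i; simp

theorem Om_eq (n : ℕ) (v : Perm (Fin N) → ℚ) (τ : Perm (Fin N)) :
    Om n v τ = ∑ I : Fin N → Fin n, rho n v I (I ∘ τ) := by
  simp only [Om, rho, cnt, Finset.sum_mul]
  rw [Finset.sum_comm, ← (preE n τ).sum_comp]
  refine Finset.sum_congr rfl fun I _ => ?_
  rw [← Equiv.sum_comp (Equiv.mulLeft τ) (fun σ : Perm (Fin N) => if I ∘ σ = I ∘ τ then v σ else 0)]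
  refine Finset.sum_congr rfl fun g _ => ?_
  have : (preE n τ I ∘ g = preE n τ I) ↔ (I ∘ (Equiv.mulLeft τ g) = I ∘ τ) := Iff.rfl
  simp only [this]
  split_ifs <;> simp

theorem cnt_conj (n : ℕ) (g h : Perm (Fin N)) : cnt n (h * g * h⁻¹) = cnt n g := by
  simp only [cnt]
  rw [← (preE n h).sum_comp (fun I => if I ∘ g = I then (1 : ℚ) else 0)]
  refine Finset.sum_congr rfl fun I _ => ?_
  have : (I ∘ (h * g * h⁻¹ : Perm (Fin N)) = I) ↔ (preE n h I ∘ g = preE n h I) := by
    constructor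
    · intro e
      funext i
      simpa [preE] using congrFun e (h i)
    · intro e
      funext i
      simpa [preE] using congrFun e (h⁻¹ i)
  simp only [this]

theorem sum_SB_conj (B : Finset (Fin N)) (g : Perm (Fin N)) (F : Perm (Fin N) → ℚ) :
    ∑ π ∈ SB B, F (g⁻¹ * π * g) = ∑ π ∈ SB (B.map (g⁻¹ : Perm (Fin N)).toEmbedding), F π := by
  refine Finset.sum_nbij' (fun π => g⁻¹ * π * g) (fun π => g * π * g⁻¹) ?_ ?_ ?_ ?_ ?_
  · intro π hπ
    refine mem_SB.2 fun i hi => ?_
    have : g i ∉ B := fun h => hi (mem_map.2 ⟨g i, h, by simp⟩)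
    simp [mem_SB.1 hπ _ this]
  · intro π hπ
    refine mem_SB.2 fun i hi => ?_
    have : g⁻¹ i ∉ B.map (g⁻¹ : Perm (Fin N)).toEmbedding := fun h => by
      obtain ⟨j, hj, e⟩ := mem_map.1 h
      have : j = i := (g⁻¹ : Perm (Fin N)).injective e
      exact hi (this ▸ hj)
    have h2 := mem_SB.1 hπ _ this
    simp only [Perm.mul_apply]
    rw [h2]
    simp
  · intro π _
    group
  · intro π _
    group
  · intro π _
    rfl

theorem Om_anti {n : ℕ} {v : Perm (Fin N) → ℚ} (hv : Anti n v) : Anti n (Om n v) := by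
  intro σ B hB
  simp only [Om, Finset.mul_sum]
  rw [Finset.sum_comm]
  refine Finset.sum_eq_zero fun g _ => ?_
  have h := hv (σ * g) (B.map (g⁻¹ : Perm (Fin N)).toEmbedding) (by simpa using hB)
  rw [← sum_SB_conj B g (fun π => ((Perm.sign π : ℤ) : ℚ) * v (σ * g * π))] at h
  rw [← mul_zero (cnt n g), ← h, Finset.mul_sum]
  refine Finset.sum_congr rfl fun π _ => ?_
  have e1 : σ * g * (g⁻¹ * π * g) = σ * π * g := by group
  have e2 : Perm.sign (g⁻¹ * π * g) = Perm.sign π := by
    rw [Perm.sign_mul, Perm.sign_mul, Perm.sign_inv, mul_comm, ← mul_assoc, Int.units_mul_self,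
      one_mul]
  rw [e1, e2]
  ring

theorem Om_symm {n : ℕ} {v : Perm (Fin N) → ℚ} (hv : Symm n v) : Symm n (Om n v) := by
  intro σ B hB
  simp only [Om]
  rw [Finset.sum_comm]
  refine Finset.sum_eq_zero fun g _ => ?_
  have h := hv (σ * g) (B.map (g⁻¹ : Perm (Fin N)).toEmbedding) (by simpa using hB)
  rw [← sum_SB_conj B g (fun π => v (σ * g * π))] at h
  rw [← mul_zero (cnt n g), ← h, Finset.mul_sum]
  refine Finset.sum_congr rfl fun π _ => ?_
  have e1 : σ * g * (g⁻¹ * π * g) = σ * π * g := by group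
  rw [e1]

/-- Invariant under conjugation by the permutations of `X`. -/
def Inv (X : Finset (Fin N)) (u : Perm (Fin N) → ℚ) : Prop :=
  ∀ h ∈ SB X, ∀ σ, u (h * σ * h⁻¹) = u σ

theorem Om_inv {n : ℕ} {X : Finset (Fin N)} {v : Perm (Fin N) → ℚ} (hv : Inv X v) :
    Inv X (Om n v) := by
  intro h hh σ
  simp only [Om]
  rw [← (MulAut.conj h).toEquiv.sum_comp]
  refine Finset.sum_congr rfl fun g _ => ?_
  have e1 : h * σ * h⁻¹ * (h * g * h⁻¹) = h * (σ * g) * h⁻¹ := by group
  simp only [MulEquiv.toEquiv_eq_coe, EquivLike.coe_coe, MulAut.conj_apply]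
  rw [cnt_conj, e1, hv h hh]

theorem sum_mul_rho (n : ℕ) (v : Perm (Fin N) → ℚ) (I : Fin N → Fin n)
    (F : (Fin N → Fin n) → ℚ) :
    ∑ τ : Perm (Fin N), v τ * F (I ∘ τ) = ∑ J, rho n v I J * F J := by
  simp only [rho, Finset.sum_mul]
  rw [Finset.sum_comm]
  refine Finset.sum_congr rfl fun τ _ => ?_
  rw [Finset.sum_eq_single (I ∘ τ)]
  · simp
  · intro J _ hJ
    rw [if_neg (Ne.symm hJ), zero_mul]
  · simp

theorem Om_inj {n : ℕ} {v : Perm (Fin N) → ℚ} (hv : Anti n v) (h : Om n v = 0) : v = 0 := by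
  refine sft v hv fun I J => ?_
  have h1 : ∑ I : Fin N → Fin n, ∑ J, rho n v I J * rho n v I J = 0 := by
    simp only [← sum_mul_rho]
    rw [Finset.sum_comm]
    simp only [← Finset.mul_sum, ← Om_eq, h, Pi.zero_apply, mul_zero, Finset.sum_const_zero]
  have h2 := (Finset.sum_eq_zero_iff_of_nonneg (fun I _ =>
    Finset.sum_nonneg fun J _ => mul_self_nonneg (rho n v I J))).1 h1 I (mem_univ _)
  have h3 := (Finset.sum_eq_zero_iff_of_nonneg (fun J _ =>
    mul_self_nonneg (rho n v I J))).1 h2 J (mem_univ _)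
  simpa using h3

theorem exists_Om {n : ℕ} {X : Finset (Fin N)} {u : Perm (Fin N) → ℚ} (h1 : Anti n u)
    (h2 : Symm n u) (h3 : Inv X u) : ∃ v, Anti n v ∧ Symm n v ∧ Inv X v ∧ Om n v = u := by
  let K : Submodule ℚ (Perm (Fin N) → ℚ) :=
    { carrier := {w | Anti n w ∧ Symm n w ∧ Inv X w}
      add_mem' := fun {a b} ha hb => ⟨fun σ B hB => by
          simp only [Pi.add_apply, mul_add, Finset.sum_add_distrib, ha.1 σ B hB, hb.1 σ B hB,
            add_zero], fun σ B hB => by
          simp only [Pi.add_apply, Finset.sum_add_distrib, ha.2.1 σ B hB, hb.2.1 σ B hB,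
            add_zero], fun h hh σ => by simp only [Pi.add_apply, ha.2.2 h hh, hb.2.2 h hh]⟩
      zero_mem' := ⟨fun σ B _ => by simp, fun σ B _ => by simp, fun _ _ _ => rfl⟩
      smul_mem' := fun c w hw => ⟨fun σ B hB => by
          simp only [Pi.smul_apply, smul_eq_mul, mul_left_comm _ c, ← Finset.mul_sum,
            hw.1 σ B hB, mul_zero], fun σ B hB => by
          simp only [Pi.smul_apply, smul_eq_mul, ← Finset.mul_sum, hw.2.1 σ B hB, mul_zero],
          fun h hh σ => by simp only [Pi.smul_apply, hw.2.2 h hh]⟩ }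
  let T : K →ₗ[ℚ] K :=
    { toFun := fun v => ⟨Om n v.1, Om_anti v.2.1, Om_symm v.2.2.1, Om_inv v.2.2.2⟩
      map_add' := fun a b => by
        ext τ
        simp [Om, mul_add, Finset.sum_add_distrib]
      map_smul' := fun c a => by
        ext τ
        simp [Om, Finset.mul_sum, mul_left_comm] }
  have hT : Function.Injective T := by
    rw [← LinearMap.ker_eq_bot, LinearMap.ker_eq_bot']
    intro v hv
    exact Subtype.ext (Om_inj v.2.1 (congrArg Subtype.val hv))
  obtain ⟨v, hv⟩ := (LinearMap.injective_iff_surjective.1 hT) ⟨u, h1, h2, h3⟩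
  exact ⟨v.1, v.2.1, v.2.2.1, v.2.2.2, congrArg Subtype.val hv⟩

/-- A colour used more than `n` times gives a zero matrix entry. -/
theorem rho_colour {n : ℕ} {v : Perm (Fin N) → ℚ} (hv : Symm n v) (I J : Fin N → Fin n)
    (c : Fin n) (hc : n < (univ.filter fun i => J i = c).card) : rho n v I J = 0 := by
  obtain ⟨B, hB, hcard⟩ := Finset.exists_subset_card_eq (Nat.succ_le_of_lt hc)
  have h1 : ∀ π ∈ SB B,
      rho n v I J = ∑ σ : Perm (Fin N), if I ∘ σ = J then v (σ * π) else 0 := by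
    intro π hπ
    have hJ : J ∘ π = J := by
      funext i
      by_cases hi : i ∈ B
      · have e1 := (mem_filter.1 (hB hi)).2
        have e2 := (mem_filter.1 (hB (SB_maps hπ hi))).2
        rw [Function.comp_apply, e1, e2]
      · rw [Function.comp_apply, mem_SB.1 hπ i hi]
    rw [rho, ← Equiv.sum_comp (Equiv.mulRight π)]
    refine Finset.sum_congr rfl fun σ _ => ?_
    have : (I ∘ (Equiv.mulRight π σ) = J) ↔ (I ∘ σ = J) := by
      constructor
      · intro e
        apply (preE n π).injective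
        exact e.trans hJ.symm
      · intro e
        rw [← hJ, ← e]
        rfl
    simp only [this]
    rfl
  have h2 : ∑ π ∈ SB B, rho n v I J = 0 := by
    rw [Finset.sum_congr rfl h1, Finset.sum_comm]
    refine Finset.sum_eq_zero fun σ _ => ?_
    split_ifs
    · exact hv σ B hcard
    · simp
  rw [Finset.sum_const, nsmul_eq_mul, mul_eq_zero] at h2
  refine h2.resolve_left ?_
  exact_mod_cast (Finset.card_pos.2 ⟨1, one_mem_SB B⟩).ne'

end Pool.Agent.P.MP_ebce6b_al
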