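import Pool.Agent.P.MP_ebce6b_al.Omega

/-!
The partial trace vanishes.
-/

namespace Pool.Agent.P.MP_ebce6b_al

open Finset Equiv Function

variable {N : ℕ}

/-- The partial trace over the slot `i`. -/
def ptr (n : ℕ) (v : Perm (Fin N) → ℚ) (i : Fin N) (I J : Fin N → Fin n) : ℚ :=
  ∑ c, rho n v (update I i c) (update J i c)

theorem count_update {n : ℕ} (σ : Perm (Fin N)) (i : Fin N) (I J : Fin N → Fin n)
    (hIJ : J i = I i) (r : ℚ) :
    (∑ c, if update I i c ∘ σ = update J i c then r else 0) =
      if I ∘ (σ * swap i (σ⁻¹ i) : Perm (Fin N)) = J then (if σ i = i then (n : ℚ) else 1) * r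
      else 0 := by
  by_cases hσ : σ i = i
  · have h1 : σ⁻¹ i = i := by rw [Perm.inv_eq_iff_eq, hσ]
    have h2 : ∀ c, (update I i c ∘ σ = update J i c) ↔ I ∘ σ = J := by
      intro c
      constructor
      · intro e
        funext j
        by_cases hj : j = i
        · subst hj
          simp [hσ, hIJ]
        · have h3 : σ j ≠ i := fun h => hj (σ.injective (h.trans hσ.symm))
          simpa [update_of_ne hj, update_of_ne h3] using congrFun e j
      · intro e
        funext j
        by_cases hj : j = i
        · subst hj
          simp [hσ]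
        · have h3 : σ j ≠ i := fun h => hj (σ.injective (h.trans hσ.symm))
          simpa [update_of_ne hj, update_of_ne h3] using congrFun e j
    simp only [h2, h1, swap_self, hσ, if_true]
    have : (σ * Equiv.refl (Fin N) : Perm (Fin N)) = σ := rfl
    rw [this]
    split_ifs <;> simp
  · have hk : σ (σ⁻¹ i) = i := by simp
    generalize σ⁻¹ i = k at hk
    have h1 : k ≠ i := fun h => hσ (h ▸ hk)
    rw [Finset.sum_eq_single (I (σ i))]
    · have : (update I i (I (σ i)) ∘ σ = update J i (I (σ i))) ↔
          I ∘ (σ * swap i k : Perm (Fin N)) = J := by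
        constructor
        · intro e
          funext j
          have ej := congrFun e j
          by_cases hj : j = i
          · subst hj
            simp [hIJ, hk]
          · by_cases hj' : j = k
            · subst hj'
              simpa [update_of_ne h1, hk] using ej
            · have h3 : σ j ≠ i := fun h => hj' (σ.injective (h.trans hk.symm))
              simpa [update_of_ne hj, update_of_ne h3, swap_apply_of_ne_of_ne hj hj'] using ej
        · intro e
          funext j
          have ej := congrFun e j
          by_cases hj : j = i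
          · subst hj
            simp [update_of_ne hσ]
          · by_cases hj' : j = k
            · subst hj'
              simpa [update_of_ne h1, hk] using ej
            · have h3 : σ j ≠ i := fun h => hj' (σ.injective (h.trans hk.symm))
              simpa [update_of_ne hj, update_of_ne h3, swap_apply_of_ne_of_ne hj hj'] using ej
      simp only [this, hσ, if_false, one_mul]
    · intro c _ hc
      rw [if_neg]
      intro e
      apply hc
      simpa [update_of_ne hσ] using (congrFun e i).symm
    · simp

theorem sum_update {n : ℕ} (i : Fin N) (F : (Fin N → Fin n) → ℚ) (h : ∑ I, F I = 0) :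
    ∑ I : Fin N → Fin n, ∑ c, F (update I i c) = 0 := by
  have e : ∑ p : (Fin N → Fin n) × Fin n, F (update p.1 i p.2) =
      ∑ p : (Fin N → Fin n) × Fin n, F p.1 := by
    refine Finset.sum_nbij' (fun p => (update p.1 i p.2, p.1 i))
      (fun p => (update p.1 i p.2, p.1 i)) ?_ ?_ ?_ ?_ ?_ <;> simp
  rw [← Finset.sum_product', univ_product_univ, e, Fintype.sum_prod_type_right]
  simp [h]

theorem ptr_eq_zero {n : ℕ} {v : Perm (Fin N) → ℚ} {i : Fin N}
    (h : ∀ τ : Perm (Fin N), τ i = i → Om n v τ = 0) (I J : Fin N → Fin n) :
    ptr n v i I J = 0 := by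
  have h1 : ∀ I J : Fin N → Fin n, J i = I i → ptr n v i I J =
      ∑ σ : Perm (Fin N), if I ∘ (σ * swap i (σ⁻¹ i) : Perm (Fin N)) = J then
        (if σ i = i then (n : ℚ) else 1) * v σ else 0 := by
    intro I J hIJ
    simp only [ptr, rho]
    rw [Finset.sum_comm]
    exact Finset.sum_congr rfl fun σ _ => count_update σ i I J hIJ (v σ)
  have h2 : ∀ τ : Perm (Fin N), τ i = i → ∑ I : Fin N → Fin n, ptr n v i I (I ∘ τ) = 0 := by
    intro τ hτ
    have := sum_update i (fun I : Fin N → Fin n => rho n v I (I ∘ τ))
      (by rw [← Om_eq]; exact h τ hτ)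
    rw [← this]
    refine Finset.sum_congr rfl fun I _ => Finset.sum_congr rfl fun c _ => ?_
    congr 1
    funext j
    by_cases hj : j = i
    · subst hj
      simp [hτ]
    · have h3 : τ j ≠ i := fun e => hj (τ.injective (e.trans hτ.symm))
      simp [update_of_ne hj, update_of_ne h3]
  have h3 : ∑ I : Fin N → Fin n, ∑ J : Fin N → Fin n,
      (if J i = I i then ptr n v i I J * ptr n v i I J else 0) = 0 := by
    have e : ∀ I : Fin N → Fin n, ∑ J : Fin N → Fin n,
        (if J i = I i then ptr n v i I J * ptr n v i I J else 0) =
        ∑ σ : Perm (Fin N), (if σ i = i then (n : ℚ) else 1) * v σ *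
          ptr n v i I (I ∘ (σ * swap i (σ⁻¹ i) : Perm (Fin N))) := by
      intro I
      rw [Finset.sum_congr rfl (g := fun J => ∑ σ : Perm (Fin N),
        if I ∘ (σ * swap i (σ⁻¹ i) : Perm (Fin N)) = J then
          (if σ i = i then (n : ℚ) else 1) * v σ * ptr n v i I J else 0)]
      · rw [Finset.sum_comm]
        refine Finset.sum_congr rfl fun σ _ => ?_
        rw [Finset.sum_ite_eq]
        simp
      · intro J _
        split_ifs with hJ
        · nth_rewrite 1 [h1 I J hJ]
          rw [Finset.sum_mul]
          refine Finset.sum_congr rfl fun σ _ => ?_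
          rw [ite_mul, zero_mul]
        · refine (Finset.sum_eq_zero fun σ _ => if_neg fun e => hJ ?_).symm
          rw [← e]
          simp
    simp only [e]
    rw [Finset.sum_comm]
    refine Finset.sum_eq_zero fun σ _ => ?_
    rw [← Finset.mul_sum, h2 _ (by simp), mul_zero]
  have h4 : ∀ I J : Fin N → Fin n,
      0 ≤ (if J i = I i then ptr n v i I J * ptr n v i I J else 0) := by
    intro I J
    split_ifs
    · exact mul_self_nonneg _
    · exact le_rfl
  have h5 := (Finset.sum_eq_zero_iff_of_nonneg (fun I _ =>
    Finset.sum_nonneg fun J _ => h4 I J)).1 h3 I (mem_univ _)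
  have h6 := (Finset.sum_eq_zero_iff_of_nonneg (fun J _ => h4 I J)).1 h5
    (update J i (I i)) (mem_univ _)
  simpa [ptr] using h6

end Pool.Agent.P.MP_ebce6b_al
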