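import Mathlib

/-!
The action of the group algebra of the symmetric group on colourings (tensor space) and the
second fundamental theorem in dual form.
-/

namespace Pool.Agent.P.MP_ebce6b_al

open Finset Equiv

variable {N : ℕ}

/-- The permutations that fix everything outside `B`. -/
def SB (B : Finset (Fin N)) : Finset (Perm (Fin N)) := univ.filter fun π => ∀ i ∉ B, π i = i

theorem mem_SB {B : Finset (Fin N)} {π : Perm (Fin N)} : π ∈ SB B ↔ ∀ i ∉ B, π i = i := by
  simp [SB]

theorem SB_maps {B : Finset (Fin N)} {π : Perm (Fin N)} (h : π ∈ SB B) {i : Fin N} (hi : i ∈ B) :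
    π i ∈ B := by
  by_contra hc
  have := π.injective (mem_SB.1 h _ hc)
  exact hc (this ▸ hi |> fun h' => by rw [this]; exact hi)

theorem one_mem_SB (B : Finset (Fin N)) : (1 : Perm (Fin N)) ∈ SB B := mem_SB.2 fun _ _ => rfl

theorem mul_mem_SB {B : Finset (Fin N)} {π τ : Perm (Fin N)} (h : π ∈ SB B) (h' : τ ∈ SB B) :
    π * τ ∈ SB B := mem_SB.2 fun i hi => by
  rw [Perm.mul_apply, mem_SB.1 h' i hi, mem_SB.1 h i hi]

theorem inv_mem_SB {B : Finset (Fin N)} {π : Perm (Fin N)} (h : π ∈ SB B) : π⁻¹ ∈ SB B :=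
  mem_SB.2 fun i hi => by rw [Perm.inv_eq_iff_eq, mem_SB.1 h i hi]

/-- Orthogonal to the ideal of the antisymmetriser on `n + 1` points. -/
def Anti (n : ℕ) (u : Perm (Fin N) → ℚ) : Prop :=
  ∀ (σ : Perm (Fin N)) (B : Finset (Fin N)), B.card = n + 1 →
    ∑ π ∈ SB B, ((Perm.sign π : ℤ) : ℚ) * u (σ * π) = 0

/-- Orthogonal to the ideal of the symmetriser on `n + 1` points. -/
def Symm (n : ℕ) (u : Perm (Fin N) → ℚ) : Prop :=
  ∀ (σ : Perm (Fin N)) (B : Finset (Fin N)), B.card = n + 1 → ∑ π ∈ SB B, u (σ * π) = 0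

/-- Matrix entries of `u` acting on the `N`-th tensor power of an `n`-dimensional space. -/
def rho (n : ℕ) (u : Perm (Fin N) → ℚ) (I J : Fin N → Fin n) : ℚ :=
  ∑ σ : Perm (Fin N), if I ∘ σ = J then u σ else 0

theorem first_moved {π : Perm (Fin N)} (h : π ≠ 1) :
    ∃ i, (∀ j < i, π j = j) ∧ i < π i := by
  classical
  have hne : (univ.filter fun i => π i ≠ i).Nonempty := by
    by_contra hc
    apply h
    ext i
    by_contra hi
    exact hc ⟨i, by simpa using fun h' => hi (by simp [h'])⟩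
  refine ⟨(univ.filter fun i => π i ≠ i).min' hne, ?_, ?_⟩
  · intro j hj
    by_contra hc
    exact absurd (Finset.min'_le _ j (by simpa using hc)) (not_le.2 hj)
  · set i := (univ.filter fun i => π i ≠ i).min' hne with hi
    have h1 : π i ≠ i := by simpa using Finset.min'_mem _ hne
    rcases lt_trichotomy i (π i) with h2 | h2 | h2
    · exact h2
    · exact absurd h2.symm h1
    · exfalso
      have : π (π i) ≠ π i := fun h3 => h1 (π.injective h3)
      exact absurd (Finset.min'_le _ (π i) (by simpa using this)) (not_le.2 h2)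

/-- No decreasing subsequence of length `n + 1`. -/
def Avoid (n : ℕ) (σ : Perm (Fin N)) : Prop :=
  ¬ ∃ B : Finset (Fin N), B.card = n + 1 ∧ ∀ i ∈ B, ∀ j ∈ B, i < j → σ j < σ i

theorem exists_colouring {n : ℕ} {σ : Perm (Fin N)} (h : Avoid n σ) :
    ∃ J : Fin N → Fin n, ∀ i j, i < j → J i = J j → σ i < σ j := by
  classical
  let F : Fin N → Finset (Finset (Fin N)) := fun i =>
    univ.filter fun B => (∀ a ∈ B, ∀ b ∈ B, a < b → σ b < σ a) ∧ ∀ b ∈ B, b < i ∧ σ i < σ b
  have hins : ∀ i, ∀ B ∈ F i, i ∉ B ∧ ∀ a ∈ insert i B, ∀ b ∈ insert i B, a < b → σ b < σ a := by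
    intro i B hB
    simp only [F, mem_filter, mem_univ, true_and] at hB
    refine ⟨fun hi => lt_irrefl _ (hB.2 i hi).1, ?_⟩
    intro a ha b hb hab
    rcases mem_insert.1 ha with rfl | ha' <;> rcases mem_insert.1 hb with rfl | hb'
    · exact absurd hab (lt_irrefl _)
    · exact absurd hab (not_lt.2 (hB.2 b hb').1.le)
    · exact (hB.2 a ha').2
    · exact hB.1 a ha' b hb' hab
  have hne : ∀ i, (F i).Nonempty := fun i => ⟨∅, by simp [F]⟩
  have hlt : ∀ i, (F i).sup card < n := by
    intro i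
    obtain ⟨B, hB, e⟩ := Finset.exists_mem_eq_sup (F i) (hne i) card
    rw [e]
    by_contra hc
    obtain ⟨h1, h2⟩ := hins i B hB
    have : n + 1 ≤ (insert i B).card := by rw [card_insert_of_notMem h1]; omega
    obtain ⟨C, hC, hcard⟩ := Finset.exists_subset_card_eq this
    exact h ⟨C, hcard, fun a ha b hb hab => h2 a (hC ha) b (hC hb) hab⟩
  refine ⟨fun i => ⟨(F i).sup card, hlt i⟩, ?_⟩
  intro i j hij he
  simp only [Fin.mk.injEq] at he
  rcases lt_trichotomy (σ i) (σ j) with h1 | h1 | h1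
  · exact h1
  · exact absurd (σ.injective h1) hij.ne
  · exfalso
    obtain ⟨B, hB, e⟩ := Finset.exists_mem_eq_sup (F i) (hne i) card
    obtain ⟨h2, h3⟩ := hins i B hB
    have h4 : insert i B ∈ F j := by
      simp only [F, mem_filter, mem_univ, true_and] at hB ⊢
      refine ⟨h3, ?_⟩
      intro b hb
      rcases mem_insert.1 hb with rfl | hb'
      · exact ⟨hij, h1⟩
      · exact ⟨(hB.2 b hb').1.trans hij, h1.trans (hB.2 b hb').2⟩
    have h5 := Finset.le_sup (f := card) h4
    rw [card_insert_of_notMem h2, ← he, e] at h5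
    omega

theorem rho_add (n : ℕ) (u v : Perm (Fin N) → ℚ) (I J : Fin N → Fin n) :
    rho n (u + v) I J = rho n u I J + rho n v I J := by
  simp only [rho, ← Finset.sum_add_distrib]
  refine Finset.sum_congr rfl fun σ _ => ?_
  split_ifs <;> simp

theorem rho_smul (n : ℕ) (c : ℚ) (u : Perm (Fin N) → ℚ) (I J : Fin N → Fin n) :
    rho n (c • u) I J = c * rho n u I J := by
  simp only [rho, Finset.mul_sum]
  refine Finset.sum_congr rfl fun σ _ => ?_
  split_ifs <;> simp

/-- The antisymmetriser of `B`, translated by `σ`. -/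
def asym (σ : Perm (Fin N)) (B : Finset (Fin N)) : Perm (Fin N) → ℚ :=
  fun τ => ∑ π ∈ SB B, if τ = σ * π then ((Perm.sign π : ℤ) : ℚ) else 0

theorem rho_asym {n : ℕ} (σ : Perm (Fin N)) {B : Finset (Fin N)} (hB : B.card = n + 1)
    (I J : Fin N → Fin n) : rho n (asym σ B) I J = 0 := by
  classical
  have e1 : rho n (asym σ B) I J =
      ∑ π ∈ SB B, if I ∘ (σ * π : Perm (Fin N)) = J then ((Perm.sign π : ℤ) : ℚ) else 0 := by
    simp only [rho, asym]
    rw [Finset.sum_congr rfl (g := fun τ : Perm (Fin N) => ∑ π ∈ SB B,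
      if τ = σ * π then (if I ∘ τ = J then ((Perm.sign π : ℤ) : ℚ) else 0) else 0)]
    · rw [Finset.sum_comm]
      refine Finset.sum_congr rfl fun π _ => ?_
      rw [Finset.sum_ite_eq']
      simp
    · intro τ _
      split_ifs <;> simp
  obtain ⟨a, ha, b, hb, hab, hJ⟩ := Finset.exists_ne_map_eq_of_card_lt_of_maps_to
    (s := B) (t := (univ : Finset (Fin n))) (f := J) (by simp [hB]) (fun _ _ => mem_univ _)
  have hs : swap a b ∈ SB B := mem_SB.2 fun i hi =>
    swap_apply_of_ne_of_ne (fun h => hi (h ▸ ha)) (fun h => hi (h ▸ hb))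
  have hJs : J ∘ swap a b = J := by
    funext i
    simp only [Function.comp_apply, swap_apply_def]
    split_ifs with h1 h2
    · rw [h1, hJ]
    · rw [h2, hJ]
    · rfl
  rw [e1]
  refine Finset.sum_involution (fun π _ => π * swap a b) ?_ ?_ (fun π h => mul_mem_SB h hs) ?_
  · intro π _
    have : (I ∘ (σ * (π * swap a b) : Perm (Fin N)) = J) ↔ (I ∘ (σ * π : Perm (Fin N)) = J) := by
      have e : I ∘ (σ * (π * swap a b) : Perm (Fin N)) =
          (I ∘ (σ * π : Perm (Fin N))) ∘ swap a b := rfl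
      rw [e]
      constructor
      · intro h
        have := congrArg (· ∘ swap a b) h
        simp only [hJs] at this
        rw [← this]
        funext i
        simp
      · intro h
        rw [h, hJs]
    simp only [this]
    split_ifs
    · simp [Perm.sign_swap hab]
    · simp
  · intro π _ _ h
    have : swap a b = 1 := by simpa using h
    exact hab (swap_eq_one_iff.1 this)
  · intro π _
    simp [mul_assoc]

theorem avoid_indep {n : ℕ} (w : Perm (Fin N) → ℚ) (hw : ∀ σ, ¬ Avoid n σ → w σ = 0)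
    (h : ∀ I J, rho n w I J = 0) : w = 0 := by
  classical
  by_contra hne
  have hne' : (univ.filter fun σ => w σ ≠ 0).Nonempty := by
    by_contra hc
    apply hne
    funext σ
    by_contra h1
    exact hc ⟨σ, by simpa using h1⟩
  obtain ⟨σ, hσ, hmax⟩ := Finset.exists_max_image _ (fun σ : Perm (Fin N) => toLex (⇑σ)) hne'
  have hσ' : w σ ≠ 0 := by simpa using hσ
  obtain ⟨J, hJ⟩ := exists_colouring (n := n) (σ := σ) (by
    by_contra hc
    exact hσ' (hw σ hc))
  have h1 := h (J ∘ (σ⁻¹ : Perm (Fin N))) J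
  rw [rho, Finset.sum_eq_single σ] at h1
  · apply hσ'
    rw [if_pos] at h1
    · exact h1
    · funext i
      simp
  · intro τ _ hτ
    split_ifs with h2
    · by_contra h3
      have h4 := hmax τ (by simpa using h3)
      obtain ⟨i, hi1, hi2⟩ := first_moved (π := σ⁻¹ * τ) (fun h5 => hτ (by
        rw [inv_mul_eq_one] at h5
        exact h5.symm))
      have h6 : σ i < σ ((σ⁻¹ * τ) i) := hJ _ _ hi2 (congrFun h2 i).symm
      refine absurd h4 (not_le.2 ⟨i, fun j hj => ?_, by simpa using h6⟩)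
      have := hi1 j hj
      simp only [Perm.mul_apply, Perm.inv_eq_iff_eq] at this
      exact this.symm
    · rfl
  · simp

theorem sft {n : ℕ} (v : Perm (Fin N) → ℚ) (hv : Anti n v) (h : ∀ I J, rho n v I J = 0) :
    v = 0 := by
  classical
  let Is : Submodule ℚ (Perm (Fin N) → ℚ) :=
    Submodule.span ℚ {w | ∃ σ B, B.card = n + 1 ∧ w = asym σ B}
  let Av : Submodule ℚ (Perm (Fin N) → ℚ) :=
    { carrier := {w | ∀ σ, ¬ Avoid n σ → w σ = 0}
      add_mem' := fun ha hb σ hσ => by simp [ha σ hσ, hb σ hσ]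
      zero_mem' := fun _ _ => rfl
      smul_mem' := fun c w hw σ hσ => by simp [hw σ hσ] }
  have h1 : ∀ σ : Perm (Fin N), (Pi.single σ 1 : Perm (Fin N) → ℚ) ∈ Is ⊔ Av := by
    intro σ
    induction σ using (InvImage.wf (fun σ : Perm (Fin N) => toLex (⇑σ)) wellFounded_lt).induction
      with
    | _ σ ih =>
      by_cases hσ : Avoid n σ
      · refine Submodule.mem_sup_right fun τ hτ => ?_
        rw [Pi.single_eq_of_ne]
        rintro rfl
        exact hτ hσ
      · obtain ⟨B, hB, hd⟩ := not_not.1 hσ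
        have e : (Pi.single σ 1 : Perm (Fin N) → ℚ) = asym σ B - ∑ π ∈ (SB B).erase 1,
            ((Perm.sign π : ℤ) : ℚ) • (Pi.single (σ * π) 1 : Perm (Fin N) → ℚ) := by
          funext τ
          simp only [asym, Pi.sub_apply, Finset.sum_apply, Pi.smul_apply, Pi.single_apply,
            smul_eq_mul, mul_ite, mul_one, mul_zero]
          rw [← Finset.add_sum_erase _ _ (one_mem_SB B)]
          simp
        rw [e]
        refine sub_mem (Submodule.mem_sup_left (Submodule.subset_span ⟨σ, B, hB, rfl⟩))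
          (Submodule.sum_mem _ fun π hπ => Submodule.smul_mem _ _ (ih _ ?_))
        rw [mem_erase] at hπ
        obtain ⟨i, hi1, hi2⟩ := first_moved hπ.1
        have hi : i ∈ B := by
          by_contra hc
          exact hi2.ne (mem_SB.1 hπ.2 i hc).symm
        refine ⟨i, fun j hj => ?_, hd i hi _ (SB_maps hπ.2 hi) hi2⟩
        simp [hi1 j hj]
  have h2 : v ∈ Is ⊔ Av := by
    rw [pi_eq_sum_univ' v]
    exact Submodule.sum_mem _ fun σ _ => Submodule.smul_mem _ _ (h1 σ)
  obtain ⟨a, ha, w, hw, e⟩ := Submodule.mem_sup.1 h2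
  have h3 : ∀ a ∈ Is, (∀ I J, rho n a I J = 0) ∧ ∑ τ, v τ * a τ = 0 := by
    intro a ha
    induction ha using Submodule.span_induction with
    | mem x hx =>
      obtain ⟨σ, B, hB, rfl⟩ := hx
      refine ⟨rho_asym σ hB, ?_⟩
      rw [← hv σ B hB]
      simp only [asym, Finset.mul_sum, mul_ite, mul_zero]
      rw [Finset.sum_comm]
      refine Finset.sum_congr rfl fun π _ => ?_
      rw [Finset.sum_ite_eq']
      simp [mul_comm]
    | zero => exact ⟨fun I J => by simp [rho], by simp⟩
    | add x y _ _ hx hy =>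
      refine ⟨fun I J => by rw [rho_add, hx.1, hy.1, add_zero], ?_⟩
      simp only [Pi.add_apply, mul_add, Finset.sum_add_distrib, hx.2, hy.2, add_zero]
    | smul c x _ hx =>
      refine ⟨fun I J => by rw [rho_smul, hx.1, mul_zero], ?_⟩
      simp only [Pi.smul_apply, smul_eq_mul, mul_left_comm _ c, ← Finset.mul_sum, hx.2, mul_zero]
  have h4 : w = 0 := avoid_indep w hw fun I J => by
    have := h I J
    rwa [← e, rho_add, (h3 a ha).1, zero_add] at this
  rw [h4, add_zero] at e
  have h5 := (h3 a ha).2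
  rw [e] at h5
  funext τ
  have := (Finset.sum_eq_zero_iff_of_nonneg (fun τ _ => mul_self_nonneg (v τ))).1 h5 τ (mem_univ _)
  simpa using this

end Pool.Agent.P.MP_ebce6b_al
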